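import Pool.Agent.R344.TH.D

/-! The transfer principle, part 2: bounded multiples of `z`. -/

set_option autoImplicit false

namespace Pool.Agent.H998_TP

open Finset Filter Topology
open Pool.Agent.H320R2.PD Pool.Agent.H499R2.ND
open Pool.Agent.H499R2.CO (Tz)
open Pool.Agent.R344.SP Pool.Agent.R344.TH

theorem base {d : ℤ} (hd : d % 2 = 1) {l : ℝ} (hl : 0 ≤ l) {η : ℝ} (hη : 0 < η) :
    ∃ δ z₀ : ℝ, 0 < δ ∧ 1 ≤ z₀ ∧ ∀ z : ℝ, z₀ ≤ z → ∀ A₀ : Set ℤ,
      (∀ X : ℝ, ((fA A₀ z X).card : ℝ) ≤ δ * z) →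
      ∀ A : ℝ, z / 2 ≤ A → Real.log (A / z) ≤ l → ∀ m : ℕ, (m : ℝ) ≤ l → PB (SZ d A₀ z) A m η := by
  obtain ⟨ρ, hρ0, hρ1, hod⟩ := od_large hd (c₁ := 0.6) (by norm_num)
  obtain ⟨M, hM⟩ : ∃ M : ℕ, l ≤ M := exists_nat_ge l
  have hlim : Tendsto (fun K : ℕ => ρ ^ K) atTop (𝓝 0) :=
    tendsto_pow_atTop_nhds_zero_of_lt_one hρ0.le hρ1
  obtain ⟨K, hK1, hK2, hK3⟩ : ∃ K : ℕ, ρ ^ K ≤ η / (8 * 3 ^ M) ∧ 100 * (l + 1) ≤ (K : ℝ) ∧ 1 ≤ K :=
    ((hlim.eventually_le_const (by positivity : (0 : ℝ) < η / (8 * 3 ^ M))).and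
      ((tendsto_natCast_atTop_atTop.eventually_ge_atTop (100 * (l + 1))).and
        (eventually_ge_atTop 1))).exists
  refine ⟨η / (16 * 3 ^ M * 2 ^ K), max (max 1 (K * |(d : ℝ)|)) (2 * 2 ^ K), by positivity,
    (le_max_left _ _).trans (le_max_left _ _), ?_⟩
  intro z hz A₀ hA₀ A hA1 hA2 m hm
  have hz1 : 1 ≤ z := ((le_max_left _ _).trans (le_max_left _ _)).trans hz
  have hzd : K * |(d : ℝ)| ≤ z := ((le_max_right _ _).trans (le_max_left _ _)).trans hz
  have hzK : 2 * 2 ^ K ≤ z := (le_max_right _ _).trans hz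
  have hz0 : 0 < z := by linarith
  have hA0 : 0 < A := by linarith
  have h2KA : (2 : ℝ) ^ K ≤ A := by linarith
  have hln2a := Real.log_two_gt_d9
  have hln3 := log3_le
  have h2K : (2 : ℝ) ^ K = Real.exp (K * Real.log 2) := by
    rw [Real.exp_nat_mul, Real.exp_log (by norm_num)]
  have hAz : A ≤ z * Real.exp l := by
    have h1 : A / z ≤ Real.exp l := by
      rw [← Real.exp_log (show 0 < A / z by positivity)]
      exact Real.exp_le_exp.2 hA2
    rw [div_le_iff₀ hz0] at h1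
    linarith
  have hbc := base_count hd A₀ hz0 hK3 hzd (c₁ := 0.6) (A := A) (by
    intro j hj
    have e1 : (3 : ℝ) ^ j ≤ Real.exp (0.96 * (K * Real.log 2)) := by
      have : (3 : ℝ) ^ j = Real.exp (j * Real.log 3) := by
        rw [Real.exp_nat_mul, Real.exp_log (by norm_num)]
      rw [this]
      apply Real.exp_le_exp.2
      calc (j : ℝ) * Real.log 3 ≤ (0.6 * K) * (8 / 5 * Real.log 2) := by
            apply mul_le_mul hj.le hln3 (Real.log_nonneg (by norm_num)) (by positivity)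
        _ = _ := by ring
    have e2 : 4 * A * 3 ^ j ≤ Real.exp (2 * Real.log 2) * (z * Real.exp l)
        * Real.exp (0.96 * (K * Real.log 2)) := by
      have : Real.exp (2 * Real.log 2) = 4 := by
        rw [show (2 : ℝ) * Real.log 2 = ((2 : ℕ) : ℝ) * Real.log 2 by norm_num, Real.exp_nat_mul,
          Real.exp_log (by norm_num)]
        norm_num
      rw [this]
      apply mul_le_mul _ e1 (by positivity) (by positivity)
      linarith
    refine e2.trans_lt ?_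
    have e3 : Real.exp (2 * Real.log 2) * (z * Real.exp l) * Real.exp (0.96 * (K * Real.log 2))
        = z * Real.exp (2 * Real.log 2 + l + 0.96 * (K * Real.log 2)) := by
      rw [Real.exp_add, Real.exp_add]; ring
    rw [e3, h2K]
    apply mul_lt_mul_of_pos_left _ hz0
    apply Real.exp_lt_exp.2
    have e4 : 100 * (l + 1) * 0.69 ≤ K * Real.log 2 :=
      mul_le_mul hK2 (by linarith) (by norm_num) (by positivity)
    have e5 : Real.log 2 < 0.6931471808 := Real.log_two_lt_d9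
    linarith)
  intro v w _
  refine (cls_le_ct _ _ _ _ _).trans (hbc.trans ?_)
  have hodA := hod K A hA0.le
  have hfA := hA₀ (2 ^ K * (2 * A))
  have h3m : (3 : ℝ) ^ m ≤ 3 ^ M := by
    apply pow_le_pow_right₀ (by norm_num)
    have : (m : ℝ) ≤ M := hm.trans hM
    exact_mod_cast this
  have hS1 : (2 : ℝ) ^ K * ((fA A₀ z (2 ^ K * (2 * A))).card : ℝ) ≤ η * (A / (8 * 3 ^ M)) := by
    calc (2 : ℝ) ^ K * ((fA A₀ z (2 ^ K * (2 * A))).card : ℝ)
        ≤ 2 ^ K * (η / (16 * 3 ^ M * 2 ^ K) * z) := mul_le_mul_of_nonneg_left hfA (by positivity)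
      _ = η / (16 * 3 ^ M) * z := by field_simp
      _ ≤ η / (16 * 3 ^ M) * (2 * A) := mul_le_mul_of_nonneg_left (by linarith) (by positivity)
      _ = _ := by ring
  have hS2 : (A + 2 ^ K) * ρ ^ K ≤ η * (A / (4 * 3 ^ M)) := by
    calc (A + 2 ^ K) * ρ ^ K ≤ (2 * A) * (η / (8 * 3 ^ M)) :=
          mul_le_mul (by linarith) hK1 (by positivity) (by positivity)
      _ = _ := by ring
  have hfin : η * (A / (2 * 3 ^ M)) ≤ η * (A / (2 * 3 ^ m)) := by
    apply mul_le_mul_of_nonneg_left _ hη.le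
    apply div_le_div_of_nonneg_left hA0.le (by positivity)
    linarith
  have h9 : η * (A / (8 * 3 ^ M)) + η * (A / (4 * 3 ^ M)) ≤ η * (A / (2 * 3 ^ M)) := by
    have h3M : (0 : ℝ) < 3 ^ M := by positivity
    have e1 : A / (8 * 3 ^ M) = A / 3 ^ M / 8 := by field_simp
    have e2 : A / (4 * 3 ^ M) = A / 3 ^ M / 4 := by field_simp
    have e3 : A / (2 * 3 ^ M) = A / 3 ^ M / 2 := by field_simp
    rw [e1, e2, e3]
    have : 0 ≤ η * (A / 3 ^ M) := by positivity
    nlinarith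
  linarith

end Pool.Agent.H998_TP
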