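import Pool.Agent.R344.TH.E

/-! The transfer principle, part 1: from bounded multiples of `z` to all scales. -/

set_option autoImplicit false

namespace Pool.Agent.H998_TP

open Finset
open Pool.Agent.H320R2.PD Pool.Agent.H499R2.ND
open Pool.Agent.H499R2.CO (Tz)
open Pool.Agent.R344.SP Pool.Agent.R344.TH

theorem Err_anti {d : ℤ} {A A' : ℝ} (hA' : 0 < A') (h : A' ≤ A) (k m m' : ℕ) :
    Err d A k m m' ≤ Err d A' k m m' := by
  unfold Err
  obtain ⟨Δ, hΔ⟩ : ∃ Δ : ℝ, Δ = ∑ T ∈ range (k * (3 * k) + 1),
    dev (FWT (3 * k) k T) wwt (fun w => (Wo w : ℤ)) (k + m) m' := ⟨_, rfl⟩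
  have hδnn : 0 ≤ Δ := by rw [hΔ]; exact sum_nonneg fun _ _ => sum_nonneg fun _ _ => abs_nonneg _
  rw [← hΔ]
  have h1 : (2 * 3 ^ m / A : ℝ) ≤ 2 * 3 ^ m / A' := div_le_div_of_nonneg_left (by positivity) hA' h
  have hd0 : 0 ≤ |(d : ℝ)| := abs_nonneg _
  have h2 : (1 + 2 ^ (41 * k / 20) * (2 * 3 ^ m / A)) * Δ ≤ (1 + 2 ^ (41 * k / 20) * (2 * 3 ^ m / A')) * Δ := by
    apply mul_le_mul_of_nonneg_right _ hδnn
    have := mul_le_mul_of_nonneg_left h1 (by positivity : (0 : ℝ) ≤ 2 ^ (41 * k / 20))
    linarith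
  have h3 : (1 + (|(d : ℝ)| + 2) * 2 ^ (41 * k / 20)) * (2 * 3 ^ m / A)
      ≤ (1 + (|(d : ℝ)| + 2) * 2 ^ (41 * k / 20)) * (2 * 3 ^ m / A') :=
    mul_le_mul_of_nonneg_left h1 (by positivity)
  linarith

/-- all scales -/
theorem chain {d : ℤ} (hd : Odd d) (hd3 : IsCoprime d 3) : ∃ C : ℝ, 0 < C ∧ ∀ l : ℝ, 2000 ≤ l →
    ∀ z : ℝ, 1 ≤ z → |(d : ℝ)| ≤ z → ∀ S : Set ℤ, FwdA d (2 * z) S → ∀ ρ₀ : ℝ, 0 ≤ ρ₀ →
    (∀ A : ℝ, z / 2 ≤ A → Real.log (A / z) ≤ l → ∀ m : ℕ, (m : ℝ) ≤ l → PB S A m ρ₀) →
    ∀ A : ℝ, z / 2 ≤ A → PB S A 0 (ρ₀ + C / l) := by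
  obtain ⟨C, hC, herr⟩ := err_bound2 (γ := 1 / 2) (by norm_num) le_rfl 2 d
  refine ⟨2 * C, by positivity, ?_⟩
  intro l hl z hz hdz S hfwd ρ₀ hρ₀ hbase
  have hl0 : 0 < l := by linarith
  have hz0 : 0 < z := by linarith
  have hln2a := Real.log_two_gt_d9
  have hln2b := Real.log_two_lt_d9
  have hmono : ∀ s : ℝ, l / 2 ≤ s → 1 / s ≤ 2 / l := fun s hs => by
    rw [div_le_div_iff₀ (by linarith) hl0]; linarith
  have main : ∀ n : ℕ, ∀ A : ℝ, 0 < A → l / 2 ≤ Real.log (A / z) → Real.log (A / z) ≤ l + n → ∀ m : ℕ,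
      (m : ℝ) ≤ (Real.log (A / z)) ^ (1 / 2 / 2 : ℝ) →
        PB S A m (ρ₀ + C * (2 / l - 1 / Real.log (A / z))) := by
    intro n
    have hlow : ∀ A : ℝ, 0 < A → l / 2 ≤ Real.log (A / z) → Real.log (A / z) ≤ l → ∀ m : ℕ,
        (m : ℝ) ≤ (Real.log (A / z)) ^ (1 / 2 / 2 : ℝ) →
        PB S A m (ρ₀ + C * (2 / l - 1 / Real.log (A / z))) := by
      intro A hA hlA hAn m hm
      have ht0 : 0 < Real.log (A / z) := by linarith
      have hAz : z / 2 ≤ A := by
        have h1 : 1 ≤ A / z := by
          by_contra hcon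
          push Not at hcon
          have := Real.log_neg (by positivity) hcon
          linarith
        rw [le_div_iff₀ hz0] at h1
        linarith
      have hm1 : (m : ℝ) ≤ l := by
        refine hm.trans ?_
        calc (Real.log (A / z)) ^ (1 / 2 / 2 : ℝ) ≤ l ^ (1 / 2 / 2 : ℝ) :=
              Real.rpow_le_rpow ht0.le hAn (by norm_num)
          _ ≤ l ^ (1 : ℝ) := Real.rpow_le_rpow_of_exponent_le (by linarith) (by norm_num)
          _ = l := Real.rpow_one l
      have h1 := hbase A hAz hAn m hm1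
      intro u v hu
      refine (h1 u v hu).trans ?_
      apply mul_le_mul_of_nonneg_right _ (by positivity)
      have h2 := hmono _ hlA
      have h3 : 0 ≤ C * (2 / l - 1 / Real.log (A / z)) := mul_nonneg hC.le (by linarith)
      linarith
    induction n with
    | zero =>
      intro A hA hlA hAn m hm
      rw [Nat.cast_zero, add_zero] at hAn
      exact hlow A hA hlA hAn m hm
    | succ n ih =>
      intro A hA hlA hAn m hm
      rcases le_or_gt (Real.log (A / z)) l with hcase | hcase
      · exact hlow A hA hlA hcase m hm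
      · obtain ⟨t, ht⟩ : ∃ t : ℝ, t = Real.log (A / z) := ⟨_, rfl⟩
        rw [← ht] at hlA hAn hm hcase ⊢
        have ht0 : 0 < t := by linarith
        have ht2000 : 2000 ≤ t := by linarith
        have hAz0 : 0 < A / z := by positivity
        have hexpA : Real.exp t = A / z := by rw [ht]; exact Real.exp_log hAz0
        obtain ⟨k, hk⟩ : ∃ k : ℕ, k = ⌊t ^ (1 / 2 : ℝ)⌋₊ := ⟨_, rfl⟩
        obtain ⟨m', hm'⟩ : ∃ m' : ℕ, m' = ⌊(0.9 * t) ^ (1 / 2 / 2 : ℝ)⌋₊ := ⟨_, rfl⟩
        obtain ⟨r, hr⟩ : ∃ r : ℝ, r = t ^ (1 / 2 / 2 : ℝ) := ⟨_, rfl⟩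
        have hrsq : r ^ 2 = t ^ (1 / 2 : ℝ) := by
          rw [hr, ← Real.rpow_natCast, ← Real.rpow_mul ht0.le]; congr 1; push_cast; ring
        have hsq : t ^ (1 / 2 : ℝ) = Real.sqrt t := (Real.sqrt_eq_rpow t).symm
        have hsqv : Real.sqrt t ^ 2 = t := Real.sq_sqrt ht0.le
        have hs44 : 44 ≤ Real.sqrt t := Real.le_sqrt_of_sq_le (by linarith)
        have hr0 : 0 < r := by rw [hr]; positivity
        have hr4 : 4 ≤ r := by
          by_contra hcon
          push Not at hcon
          have : r ^ 2 < 16 := by nlinarith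
          rw [hrsq, hsq] at this
          linarith
        have hsq31 : Real.sqrt t ≤ t / 44 := by nlinarith
        have hk1 : (k : ℝ) ≤ Real.sqrt t := by rw [hk, ← hsq]; exact Nat.floor_le (by positivity)
        have hk2 : Real.sqrt t - 1 ≤ k := by rw [hk, ← hsq]; linarith [Nat.lt_floor_add_one (t ^ (1 / 2 : ℝ))]
        have hk15 : (43 : ℝ) ≤ k := by linarith
        have hk1N : 1 ≤ k := by
          have : (1 : ℝ) ≤ k := by linarith
          exact_mod_cast this
        have hm'2 : (m' : ℝ) ≤ r := by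
          rw [hm', hr]
          refine (Nat.floor_le (by positivity)).trans ?_
          exact Real.rpow_le_rpow (by positivity) (by linarith) (by norm_num)
        have hm'k : m' ≤ k := by
          have : (m' : ℝ) ≤ k := by nlinarith
          exact_mod_cast this
        have hpath : (2 : ℝ) ^ (41 * k / 20) * (2 * z) ≤ A := by
          have e1 : (2 : ℝ) ^ (41 * k / 20) = Real.exp (((41 * k / 20 : ℕ) : ℝ) * Real.log 2) := by
            rw [Real.exp_nat_mul, Real.exp_log (by norm_num)]
          have e2 : (2 : ℝ) ^ (41 * k / 20) * 2 ≤ Real.exp t := by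
            have e0 : (2 : ℝ) = Real.exp (Real.log 2) := (Real.exp_log (by norm_num)).symm
            calc (2 : ℝ) ^ (41 * k / 20) * 2
                = Real.exp (((41 * k / 20 : ℕ) : ℝ) * Real.log 2) * Real.exp (Real.log 2) := by
                  rw [← e1, ← e0]
              _ ≤ Real.exp t := by
                  rw [← Real.exp_add]
                  apply Real.exp_le_exp.2
                  have e3 : 20 * (41 * k / 20) ≤ 41 * k := Nat.mul_div_le _ _
                  have e4 : (20 : ℝ) * ((41 * k / 20 : ℕ) : ℝ) ≤ 41 * k := by exact_mod_cast e3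
                  have e5 : ((41 * k / 20 : ℕ) : ℝ) * Real.log 2 ≤ (41 / 20 * Real.sqrt t) * 0.6931471808 :=
                    mul_le_mul (by linarith) hln2b.le (by linarith) (by positivity)
                  nlinarith
          rw [hexpA, le_div_iff₀ hz0] at e2
          linarith
        have hE := herr (A / z) hAz0 (by rw [← ht]; linarith) (by rw [← ht, ← hr]; exact hr4) k m m'
          (by rw [← ht]; exact hm) (by rw [← ht]; exact hk) (by rw [← ht]; exact hm')
        rw [← ht] at hE
        have hE2 : Err d A k m m' ≤ C / t ^ 2 := by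
          refine (Err_anti hAz0 ?_ k m m').trans hE
          exact div_le_self hA.le hz
        have ht1l : l / 2 ≤ t - 1 := by linarith
        have hρ : 0 ≤ ρ₀ + C * (2 / l - 1 / (t - 1)) := by
          have e1 := hmono (t - 1) ht1l
          have e3 : 0 ≤ C * (2 / l - 1 / (t - 1)) := mul_nonneg hC.le (by linarith)
          linarith
        have hst := stageA hd hd3 (Z := 2 * z) (by linarith) hfwd hA hk1N hm'k (m := m) hpath hρ (by
          intro T hT1 hT2
          have hn := next_scale2 hAz0 hT1 hT2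
          rw [← ht] at hn
          have hre : A / z * 3 ^ k / 2 ^ T = (A * 3 ^ k / 2 ^ T) / z := by field_simp
          rw [hre] at hn
          have hA'pos : 0 < A * 3 ^ k / 2 ^ T := by positivity
          have h33 : 0.33 * (k : ℝ) ≤ 0.1 * t := by nlinarith
          have hge : l / 2 ≤ Real.log (A * 3 ^ k / 2 ^ T / z) := by
            linarith [hn.1]
          have hih := ih (A * 3 ^ k / 2 ^ T) hA'pos hge (by
              push_cast at hAn
              linarith [hn.2]) m' (by
              rw [hm']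
              refine (Nat.floor_le (by positivity)).trans ?_
              apply Real.rpow_le_rpow (by positivity) _ (by norm_num)
              linarith [hn.1])
          intro u v hu
          refine (hih u v hu).trans ?_
          apply mul_le_mul_of_nonneg_right _ (by positivity)
          have : 1 / (t - 1) ≤ 1 / Real.log (A * 3 ^ k / 2 ^ T / z) :=
            one_div_le_one_div_of_le (by linarith) (by linarith [hn.2])
          have h5 := mul_le_mul_of_nonneg_left this hC.le
          rw [mul_sub, mul_sub]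
          linarith)
        intro u v hu
        refine (hst u v hu).trans ?_
        apply mul_le_mul_of_nonneg_right _ (by positivity)
        have e1 := pow_step 1 le_rfl (t := t) (by linarith)
        rw [pow_one, pow_one] at e1
        have e2 := mul_le_mul_of_nonneg_left e1 hC.le
        have e3 : C / t ^ 2 = C * (1 / t ^ (1 + 1)) := by norm_num [div_eq_mul_inv]
        rw [e3] at hE2
        rw [mul_sub, mul_sub]
        rw [mul_add] at e2
        linarith
  intro A hAz
  have hA : 0 < A := by linarith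
  rcases le_or_gt (Real.log (A / z)) l with hc | hc
  · have h1 := hbase A hAz hc 0 (by rw [Nat.cast_zero]; linarith)
    intro u v hu
    refine (h1 u v hu).trans ?_
    apply mul_le_mul_of_nonneg_right _ (by positivity)
    have : 0 ≤ 2 * C / l := by positivity
    linarith
  · obtain ⟨n, hn⟩ := exists_nat_ge (Real.log (A / z) - l)
    have ht0 : 0 < Real.log (A / z) := by linarith
    have h1 := main n A hA (by linarith) (by linarith) 0 (by rw [Nat.cast_zero]; positivity)
    intro u v hu
    refine (h1 u v hu).trans ?_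
    apply mul_le_mul_of_nonneg_right _ (by positivity)
    have e1 : 0 < 1 / Real.log (A / z) := by positivity
    have e2 : 2 * C / l = C * (2 / l) := by ring
    rw [e2, mul_sub]
    have := mul_nonneg hC.le e1.le
    linarith

end Pool.Agent.H998_TP
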