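import Pool.Agent.H998_TP.Chain
import Pool.Agent.H998_TP.Base
import Pool.Agent.R344.TH.F
import Pool.Agent.H499R2.NDFinal

/-! The transfer principle, part 3: the first term below `Z` avoids sets of small density. -/

set_option autoImplicit false

namespace Pool.Agent.H998_TP

open Finset Filter Topology
open Pool.Agent.H320R2.PD Pool.Agent.H499R2.ND
open Pool.Agent.H499R2.CO (Tz)
open Pool.Agent.R344.SP Pool.Agent.R344.TH

theorem SZ_small {d : ℤ} (hd : Odd d) (hd3 : IsCoprime d 3) {η : ℝ} (hη : 0 < η) :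
    ∃ δ z₀ : ℝ, 0 < δ ∧ 1 ≤ z₀ ∧ ∀ z : ℝ, z₀ ≤ z → ∀ A₀ : Set ℤ,
      (∀ X : ℝ, ((fA A₀ z X).card : ℝ) ≤ δ * z) →
      ∀ A : ℝ, z / 2 ≤ A → PB (SZ d A₀ z) A 0 η := by
  have hd2 : d % 2 = 1 := Int.odd_iff.1 hd
  obtain ⟨C, hC, hch⟩ := chain hd hd3
  obtain ⟨l, hl⟩ : ∃ l : ℝ, l = max 2000 (2 * C / η) := ⟨_, rfl⟩
  have hl1 : 2000 ≤ l := by rw [hl]; exact le_max_left _ _
  have hl2 : 2 * C / η ≤ l := by rw [hl]; exact le_max_right _ _
  have hl0 : 0 < l := by linarith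
  have hCl : C / l ≤ η / 2 := by
    rw [div_le_iff₀ hη] at hl2
    rw [div_le_iff₀ hl0]
    linarith
  obtain ⟨δ, z₀, hδ, hz₀, hb⟩ := base hd2 hl0.le (show 0 < η / 2 by positivity)
  refine ⟨δ, max z₀ |(d : ℝ)|, hδ, hz₀.trans (le_max_left _ _), ?_⟩
  intro z hz A₀ hA₀ A hA
  have hz1 : 1 ≤ z := hz₀.trans ((le_max_left _ _).trans hz)
  have h1 := hch l hl1 z hz1 ((le_max_right _ _).trans hz) (SZ d A₀ z) (SZ_fwd hd2 (by linarith))
    (η / 2) (by positivity) (fun A hA hAl m hm => hb z ((le_max_left _ _).trans hz) A₀ hA₀ A hA hAl m hm)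
    A hA
  intro u v hu
  refine (h1 u v hu).trans ?_
  have hA0 : 0 ≤ A := by linarith
  apply mul_le_mul_of_nonneg_right _ (by positivity)
  linarith

/-- the first term below `Z` lies in `E` -/
def Fp (d : ℤ) (E : Set ℤ) (Z : ℝ) (x : ℤ) : Prop := ∃ k : ℕ, (Tz d)^[k] x ∈ E ∧
  (((Tz d)^[k] x : ℤ) : ℝ) < Z ∧ ∀ j < k, Z ≤ (((Tz d)^[j] x : ℤ) : ℝ)

theorem half_step {d : ℤ} (hd : d % 2 = 1) {Z : ℝ} (hZ : |(d : ℝ)| ≤ Z) {x : ℤ} (hx : Z ≤ x) :
    Z / 2 ≤ ((Tz d x : ℤ) : ℝ) := by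
  have hd0 := neg_abs_le (d : ℝ)
  have hda := abs_nonneg (d : ℝ)
  by_cases h : x % 2 = 0
  · have h1 : 2 * ((Tz d x : ℤ) : ℝ) = x := by exact_mod_cast Tz_even (d := d) h
    linarith
  · have h1 : 2 * ((Tz d x : ℤ) : ℝ) = 3 * x + d := by exact_mod_cast Tz_odd hd h
    linarith

open scoped Classical in
theorem Fp_count {d : ℤ} (hd : Odd d) (hd3 : IsCoprime d 3) {ε : ℝ} (hε : 0 < ε) :
    ∃ δ Z₀ : ℝ, 0 < δ ∧ 2 ≤ Z₀ ∧ ∀ Z : ℝ, Z₀ ≤ Z → ∀ F : Finset ℤ, (F.card : ℝ) ≤ δ * Z →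
      ∀ N : ℕ, Z ≤ N → (((Icc (1 : ℤ) N).filter (fun n => Fp d F Z n)).card : ℝ) ≤ ε * N := by
  have hd2 : d % 2 = 1 := Int.odd_iff.1 hd
  obtain ⟨δ₁, z₀, hδ₁, hz₀, hPB⟩ := SZ_small hd hd3 (show 0 < ε / 4 by positivity)
  refine ⟨min (δ₁ / 2) (ε / 4), max (2 * z₀) |(d : ℝ)|, by positivity,
    le_trans (by linarith) (le_max_left _ _), ?_⟩
  intro Z hZ F hF N hZN
  have hZ1 : 2 * z₀ ≤ Z := (le_max_left _ _).trans hZ
  have hZd : |(d : ℝ)| ≤ Z := (le_max_right _ _).trans hZ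
  have hZ2 : 2 ≤ Z := by linarith
  have hZ0 : 0 < Z := by linarith
  have hN0 : (0 : ℝ) < N := by linarith
  obtain ⟨z, hz⟩ : ∃ z : ℝ, z = Z / 2 := ⟨_, rfl⟩
  have hz0 : 0 < z := by rw [hz]; positivity
  have hF1 : (F.card : ℝ) ≤ δ₁ * z := by
    refine hF.trans ?_
    calc min (δ₁ / 2) (ε / 4) * Z ≤ δ₁ / 2 * Z := mul_le_mul_of_nonneg_right (min_le_left _ _) hZ0.le
      _ = _ := by rw [hz]; ring
  have hF2 : (F.card : ℝ) ≤ ε / 4 * Z :=
    hF.trans (mul_le_mul_of_nonneg_right (min_le_right _ _) hZ0.le)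
  have hfA : ∀ X : ℝ, ((fA (F : Set ℤ) z X).card : ℝ) ≤ δ₁ * z := by
    intro X
    refine le_trans ?_ hF1
    have : fA (F : Set ℤ) z X ⊆ F := by
      intro x hx
      rw [mem_fA] at hx
      exact_mod_cast hx.2
    exact_mod_cast card_le_card this
  have hoddc : ∀ X : ℝ, 0 < X → (((Icc (1 : ℤ) ⌊X⌋).filter (fun x => Odd x ∧ x ∈ SZ d (F : Set ℤ) z)).card : ℝ)
      ≤ ε / 4 * X := fun X hX =>
    odd_count (by positivity) (fun x hx => SZ_ge hx)
      (fun A hA => hPB z (by rw [hz]; linarith) (F : Set ℤ) hfA A hA) hX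
  obtain ⟨E, hE⟩ : ∃ E : ℕ, (N : ℝ) < 2 ^ E := pow_unbounded_of_one_lt _ (by norm_num)
  set F₁ : ℕ → Finset ℤ := fun e => ((Icc (1 : ℤ) ⌊(N : ℝ) * (1 / 2) ^ e⌋).filter
    (fun x => Odd x ∧ x ∈ SZ d (F : Set ℤ) z)).image (fun x => 2 ^ e * x) with hF₁
  set F₂ : ℕ → Finset ℤ := fun e => F.image (fun x => 2 ^ e * x) with hF₂
  obtain ⟨Q, hQ⟩ : ∃ Q : ℕ, Q = ⌊(N : ℝ) / Z⌋₊ + 1 := ⟨_, rfl⟩
  have hsub : (Icc (1 : ℤ) N).filter (fun n => Fp d F Z n)
      ⊆ (range E).biUnion F₁ ∪ (range Q).biUnion F₂ := by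
    intro n hn
    rw [mem_filter, Finset.mem_Icc] at hn
    obtain ⟨⟨hn1, hn2⟩, k, hk1, hk2, hk3⟩ := hn
    obtain ⟨e, M, hMo, hM0, hnM⟩ := odd_part (by omega : 0 < n)
    have hnNR : (n : ℝ) ≤ N := by exact_mod_cast hn2
    have hnMR : (n : ℝ) = 2 ^ e * M := by exact_mod_cast hnM
    have hM1 : (1 : ℝ) ≤ M := by
      have : (1 : ℤ) ≤ M := by omega
      exact_mod_cast this
    rw [mem_union, mem_biUnion, mem_biUnion]
    rcases le_or_gt Z (M : ℝ) with hZM | hZM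
    · left
      have heE : e < E := by
        by_contra hcon
        push Not at hcon
        have h1 : (2 : ℝ) ^ E ≤ 2 ^ e := pow_le_pow_right₀ (by norm_num) hcon
        have h2 : (2 : ℝ) ^ e ≤ n := by rw [hnMR]; exact le_mul_of_one_le_right (by positivity) hM1
        linarith
      have hek : e < k := by
        by_contra hcon
        push Not at hcon
        rw [hnM, iter_pow_two M k e hcon] at hk2
        push_cast at hk2
        have : (1 : ℝ) ≤ 2 ^ (e - k) := one_le_pow₀ (by norm_num)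
        nlinarith
      refine ⟨e, mem_range.2 heE, ?_⟩
      rw [hF₁]
      simp only [mem_image, mem_filter, Finset.mem_Icc, Int.le_floor]
      have hTe : (Tz d)^[e] n = M := by
        rw [hnM, iter_pow_two M e e le_rfl]; simp
      have hsh : ∀ j, (Tz d)^[j] M = (Tz d)^[j + e] n := by
        intro j
        rw [Function.iterate_add_apply, hTe]
      have hlast : z ≤ (((Tz d)^[k] n : ℤ) : ℝ) := by
        obtain ⟨k', hk'⟩ : ∃ k', k = k' + 1 := ⟨k - 1, by omega⟩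
        rw [hk', Function.iterate_succ_apply', hz]
        exact half_step hd2 hZd (hk3 k' (by omega))
      refine ⟨M, ⟨⟨by omega, ?_⟩, hMo, k - e, ?_, ?_, k - e, le_rfl, ?_⟩, hnM.symm⟩
      · rw [one_div, inv_pow, ← div_eq_mul_inv, le_div_iff₀ (by positivity)]
        linarith
      · rw [hsh, Nat.sub_add_cancel hek.le]; exact hk1
      · intro j hj
        rw [hsh]
        rcases Nat.lt_or_ge (j + e) k with h | h
        · have := hk3 (j + e) h
          linarith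
        · have : j + e = k := by omega
          rw [this]; exact hlast
      · rw [hsh, Nat.sub_add_cancel hek.le, hz]
        linarith
    · right
      have hek : k ≤ e := by
        by_contra hcon
        push Not at hcon
        have := hk3 e hcon
        rw [hnM, iter_pow_two M e e le_rfl] at this
        simp at this
        linarith
      have hTk : (Tz d)^[k] n = 2 ^ (e - k) * M := by
        rw [hnM, iter_pow_two M k e hek]
      refine ⟨k, ?_, ?_⟩
      · rw [mem_range, hQ]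
        rcases Nat.eq_zero_or_pos k with h0 | h0
        · omega
        · apply Nat.lt_succ_of_le
          rw [Nat.le_floor_iff (by positivity), le_div_iff₀ hZ0]
          obtain ⟨k', hk'⟩ : ∃ k', k = k' + 1 := ⟨k - 1, by omega⟩
          have h1 := hk3 k' (by omega)
          rw [hnM, iter_pow_two M k' e (by omega)] at h1
          push_cast at h1
          have h2 : (k : ℝ) ≤ 2 ^ k' := by
            have : k ≤ 2 ^ k' := by
              have := Nat.lt_two_pow_self (n := k')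
              omega
            exact_mod_cast this
          calc (k : ℝ) * Z ≤ 2 ^ k' * (2 ^ (e - k') * M) :=
                mul_le_mul h2 h1 hZ0.le (by positivity)
            _ = 2 ^ e * M := by rw [← mul_assoc, ← pow_add, Nat.add_sub_cancel' (by omega)]
            _ ≤ N := by rw [← hnMR]; exact hnNR
      · rw [hF₂]
        simp only [mem_image]
        refine ⟨2 ^ (e - k) * M, ?_, ?_⟩
        · rw [← hTk]; exact_mod_cast hk1
        · rw [← mul_assoc, ← pow_add, Nat.add_sub_cancel' hek]; exact hnM.symm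
  have hc1 : (((Icc (1 : ℤ) N).filter (fun n => Fp d F Z n)).card : ℝ)
      ≤ ∑ e ∈ range E, ((F₁ e).card : ℝ) + ∑ e ∈ range Q, ((F₂ e).card : ℝ) := by
    have h1 := (card_le_card hsub).trans (card_union_le _ _)
    have h2 : ((range E).biUnion F₁).card ≤ ∑ e ∈ range E, (F₁ e).card := card_biUnion_le
    have h3 : ((range Q).biUnion F₂).card ≤ ∑ e ∈ range Q, (F₂ e).card := card_biUnion_le
    have h4 := h1.trans (add_le_add h2 h3)
    exact_mod_cast h4
  have hF₁c : ∀ e ∈ range E, ((F₁ e).card : ℝ) ≤ ε / 4 * N * (1 / 2) ^ e := by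
    intro e _
    have h1 : ((F₁ e).card : ℝ) ≤ (((Icc (1 : ℤ) ⌊(N : ℝ) * (1 / 2) ^ e⌋).filter
      (fun x => Odd x ∧ x ∈ SZ d (F : Set ℤ) z)).card : ℝ) := by exact_mod_cast card_image_le
    refine h1.trans ((hoddc _ (by positivity)).trans (le_of_eq ?_))
    ring
  have hF₂c : ∀ e ∈ range Q, ((F₂ e).card : ℝ) ≤ ε / 4 * Z := by
    intro e _
    refine le_trans ?_ hF2
    exact_mod_cast card_image_le
  have hs1 : ∑ e ∈ range E, ((F₁ e).card : ℝ) ≤ ε / 2 * N := by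
    refine (sum_le_sum hF₁c).trans ?_
    rw [← mul_sum]
    calc ε / 4 * N * ∑ i ∈ range E, (1 / 2 : ℝ) ^ i ≤ ε / 4 * N * 2 :=
          mul_le_mul_of_nonneg_left (geom_half E) (by positivity)
      _ = _ := by ring
  have hs2 : ∑ e ∈ range Q, ((F₂ e).card : ℝ) ≤ ε / 2 * N := by
    refine (sum_le_sum hF₂c).trans ?_
    rw [sum_const, card_range, nsmul_eq_mul, hQ]
    have h1 : (⌊(N : ℝ) / Z⌋₊ : ℝ) ≤ N / Z := Nat.floor_le (by positivity)
    have h2 : (N : ℝ) / Z * Z = N := div_mul_cancel₀ _ hZ0.ne'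
    push_cast
    have h3 : ((⌊(N : ℝ) / Z⌋₊ : ℝ) + 1) * Z ≤ 2 * N := by
      have := mul_le_mul_of_nonneg_right h1 hZ0.le
      linarith
    calc ((⌊(N : ℝ) / Z⌋₊ : ℝ) + 1) * (ε / 4 * Z) = ε / 4 * (((⌊(N : ℝ) / Z⌋₊ : ℝ) + 1) * Z) := by ring
      _ ≤ ε / 4 * (2 * N) := mul_le_mul_of_nonneg_left h3 (by positivity)
      _ = _ := by ring
  linarith

end Pool.Agent.H998_TP
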