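import Pool.Agent.H998_TP.Fin
import Pool.Agent.H998_BC.Nat
import Pool.Agent.H998_BC.Terras
import Pool.Agent.R344.SP.Q

/-! The transfer principle, part 4: final form. -/

set_option autoImplicit false

namespace Pool.Agent.H998_TP

open Finset Filter Topology
open Pool.Agent.H320R2.PD Pool.Agent.H499R2.ND
open Pool.Agent.H499R2.CO (Tz)
open Pool.Agent.R344.TH
open Pool.Agent.H998_BC (Ta)

/-- the positive integers whose trajectory stays above `y` -/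
def Sty (d : ℤ) (y : ℝ) : Set ℤ := {x : ℤ | 1 ≤ x ∧ ∀ k : ℕ, y < (((Tz d)^[k] x : ℤ) : ℝ)}

open scoped Classical in
theorem stay_count {d : ℤ} (hd : Odd d) (hd3 : IsCoprime d 3) {ε : ℝ} (hε : 0 < ε) :
    ∃ Z₀ : ℝ, 2 ≤ Z₀ ∧ ∀ Z : ℝ, Z₀ ≤ Z → ∀ N : ℕ,
      (((Icc (1 : ℤ) N).filter (fun n => ∀ k : ℕ, Z ≤ (((Tz d)^[k] n : ℤ) : ℝ))).card : ℝ) ≤ ε * N := by
  have hd2 : d % 2 = 1 := Int.odd_iff.1 hd
  obtain ⟨K, hK, h⟩ := main_pos 1 hd hd3
  obtain ⟨Z₀, hZ₀⟩ : ∃ Z₀ : ℝ, Z₀ = max 4 (2 * Real.exp (2 * K / ε)) := ⟨_, rfl⟩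
  refine ⟨Z₀, by rw [hZ₀]; exact le_trans (by norm_num) (le_max_left _ _), ?_⟩
  intro Z hZ N
  have hZ4 : 4 ≤ Z := by refine le_trans ?_ hZ; rw [hZ₀]; exact le_max_left _ _
  have hZe : 2 * Real.exp (2 * K / ε) ≤ Z := by refine le_trans ?_ hZ; rw [hZ₀]; exact le_max_right _ _
  rcases Nat.eq_zero_or_pos N with rfl | hN
  · simp
  have hN1 : (1 : ℝ) ≤ N := by exact_mod_cast hN
  have hfwd : Fwd d (Sty d (Z / 2)) := by
    intro M x e he hM hx hMS heq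
    obtain ⟨hM1, hMk⟩ := hMS
    have hTe : (Tz d)^[e] M = x := by
      obtain ⟨i, rfl⟩ : ∃ i, e = i + 1 := ⟨e - 1, by omega⟩
      rw [iter_syr hd2 hM heq i le_rfl]; simp
    have hk : ∀ k : ℕ, Z / 2 < (((Tz d)^[k] x : ℤ) : ℝ) := by
      intro k
      have := hMk (k + e)
      rwa [Function.iterate_add_apply, hTe] at this
    refine ⟨?_, hk⟩
    have h0 := hk 0
    rw [Function.iterate_zero, id] at h0
    have h1 : (0 : ℝ) < x := by linarith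
    have h2 : 0 < x := by exact_mod_cast h1
    omega
  have htwo : ∀ x : ℤ, 2 * x ∈ Sty d (Z / 2) → x ∈ Sty d (Z / 2) := by
    intro x hx
    obtain ⟨h1, h2⟩ := hx
    refine ⟨by omega, fun k => ?_⟩
    have h3 := h2 (k + 1)
    rw [Function.iterate_succ_apply] at h3
    have h4 := Tz_even (d := d) (y := 2 * x) (by omega)
    have h5 : Tz d (2 * x) = x := by omega
    rwa [h5] at h3
  have hlow : ∀ x ∈ Sty d (Z / 2), 0 < x → Z / 2 < (x : ℝ) := fun x hx _ => by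
    have := hx.2 0
    rwa [Function.iterate_zero, id] at this
  have h1 := h (Z / 2) (by linarith) (Sty d (Z / 2)) hfwd htwo hlow (2 * N) (by positivity)
  have hlog : 2 * K / ε ≤ Real.log (Z / 2) := by
    rw [Real.le_log_iff_exp_le (by linarith)]; linarith
  have hlog0 : 0 < Real.log (Z / 2) := lt_of_lt_of_le (by positivity) hlog
  refine le_trans ?_ (h1.trans ?_)
  · have : (Icc (1 : ℤ) N).filter (fun n => ∀ k : ℕ, Z ≤ (((Tz d)^[k] n : ℤ) : ℝ))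
        ⊆ pos (Sty d (Z / 2)) (2 * N) := by
      intro n hn
      rw [mem_filter, Finset.mem_Icc] at hn
      obtain ⟨⟨h2, h3⟩, h4⟩ := hn
      rw [mem_pos]
      have h5 : (n : ℝ) ≤ N := by exact_mod_cast h3
      exact ⟨⟨h2, by linarith⟩, h2, fun k => by linarith [h4 k]⟩
    exact_mod_cast card_le_card this
  · rw [pow_one, div_le_iff₀ hlog0]
    rw [div_le_iff₀ hε] at hlog
    nlinarith

open scoped Classical in
/-- the first term below `Z` avoids sets of small density -/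
theorem transferZ {d : ℤ} (hd : Odd d) (hd3 : IsCoprime d 3) {ε : ℝ} (hε : 0 < ε) :
    ∃ δ Z₀ : ℝ, 0 < δ ∧ 2 ≤ Z₀ ∧ ∀ Z : ℝ, Z₀ ≤ Z → ∀ F : Finset ℤ, (F.card : ℝ) ≤ δ * Z →
      ∀ N : ℕ, Z ≤ N → (((Icc (1 : ℤ) N).filter (fun n => ¬ ∃ k : ℕ, (Tz d)^[k] n ∉ F ∧
        (((Tz d)^[k] n : ℤ) : ℝ) < Z ∧ ∀ j < k, Z ≤ (((Tz d)^[j] n : ℤ) : ℝ))).card : ℝ) ≤ ε * N := by
  obtain ⟨δ, Z₁, hδ, hZ₁, h1⟩ := Fp_count hd hd3 (show 0 < ε / 2 by positivity)
  obtain ⟨Z₂, hZ₂, h2⟩ := stay_count hd hd3 (show 0 < ε / 2 by positivity)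
  refine ⟨δ, max Z₁ Z₂, hδ, hZ₁.trans (le_max_left _ _), ?_⟩
  intro Z hZ F hF N hN
  have e1 := h1 Z ((le_max_left _ _).trans hZ) F hF N hN
  have e2 := h2 Z ((le_max_right _ _).trans hZ) N
  have hsub : (Icc (1 : ℤ) N).filter (fun n => ¬ ∃ k : ℕ, (Tz d)^[k] n ∉ F ∧
        (((Tz d)^[k] n : ℤ) : ℝ) < Z ∧ ∀ j < k, Z ≤ (((Tz d)^[j] n : ℤ) : ℝ))
      ⊆ (Icc (1 : ℤ) N).filter (fun n => Fp d F Z n)
        ∪ (Icc (1 : ℤ) N).filter (fun n => ∀ k : ℕ, Z ≤ (((Tz d)^[k] n : ℤ) : ℝ)) := by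
    intro n hn
    rw [mem_filter] at hn
    obtain ⟨hn1, hn2⟩ := hn
    rw [mem_union, mem_filter, mem_filter]
    by_cases hst : ∀ k : ℕ, Z ≤ (((Tz d)^[k] n : ℤ) : ℝ)
    · exact Or.inr ⟨hn1, hst⟩
    · left
      push Not at hst
      have hmin := Nat.find_spec hst
      have hle := fun j (hj : j < Nat.find hst) => Nat.find_min hst hj
      refine ⟨hn1, Nat.find hst, ?_, hmin, fun j hj => not_lt.1 (hle j hj)⟩
      by_contra hcon
      exact hn2 ⟨Nat.find hst, fun h => hcon (by exact_mod_cast h), hmin, fun j hj => not_lt.1 (hle j hj)⟩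
  have h3 := (card_le_card hsub).trans (card_union_le _ _)
  have h4 : (((Icc (1 : ℤ) N).filter (fun n => ¬ ∃ k : ℕ, (Tz d)^[k] n ∉ F ∧
        (((Tz d)^[k] n : ℤ) : ℝ) < Z ∧ ∀ j < k, Z ≤ (((Tz d)^[j] n : ℤ) : ℝ))).card : ℝ)
      ≤ (((Icc (1 : ℤ) N).filter (fun n => Fp d F Z n)).card : ℝ)
        + (((Icc (1 : ℤ) N).filter (fun n => ∀ k : ℕ, Z ≤ (((Tz d)^[k] n : ℤ) : ℝ))).card : ℝ) := by
    exact_mod_cast h3
  linarith

theorem T_to_C {Z : ℝ} : ∀ k n : ℕ, (∀ j < k, Z ≤ ((Ta^[j] n : ℕ) : ℝ)) →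
    ∃ k', H998_BC.C^[k'] n = Ta^[k] n ∧ ∀ j < k', Z ≤ ((H998_BC.C^[j] n : ℕ) : ℝ)
  | 0, n, _ => ⟨0, rfl, fun j hj => by omega⟩
  | k + 1, n, h => by
    obtain ⟨k'', h1, h2⟩ := T_to_C k (Ta n) (fun j hj => by
      have := h (j + 1) (by omega)
      rwa [Function.iterate_succ_apply] at this)
    have h0 : Z ≤ (n : ℝ) := h 0 (by omega)
    by_cases he : n % 2 = 0
    · have hT : Ta n = H998_BC.C n := by unfold Ta H998_BC.C; rw [if_pos he, if_pos he]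
      refine ⟨k'' + 1, ?_, ?_⟩
      · rw [Function.iterate_succ_apply, Function.iterate_succ_apply, ← hT, h1]
      · intro j hj
        rcases Nat.eq_zero_or_pos j with rfl | hj0
        · exact h0
        · obtain ⟨i, rfl⟩ : ∃ i, j = i + 1 := ⟨j - 1, by omega⟩
          rw [Function.iterate_succ_apply, ← hT]
          exact h2 i (by omega)
    · have hC1 : H998_BC.C n = 3 * n + 1 := by unfold H998_BC.C; rw [if_neg he]
      have hT : Ta n = H998_BC.C (H998_BC.C n) := by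
        rw [hC1]
        unfold Ta H998_BC.C
        rw [if_neg he, if_pos (by omega)]
      refine ⟨k'' + 2, ?_, ?_⟩
      · rw [Function.iterate_succ_apply, Function.iterate_succ_apply, Function.iterate_succ_apply, ← hT, h1]
      · intro j hj
        match j, hj with
        | 0, _ => exact h0
        | 1, _ =>
          rw [Function.iterate_one, hC1]
          push_cast
          have : (0 : ℝ) ≤ n := Nat.cast_nonneg n
          linarith
        | i + 2, hj =>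
          rw [Function.iterate_succ_apply, Function.iterate_succ_apply, ← hT]
          exact h2 i (by omega)

/-- the first term of the Collatz trajectory below `Z` avoids sets of small density -/
theorem transfer {ε : ℝ} (hε : 0 < ε) :
    ∃ δ Z₀ : ℝ, 0 < δ ∧ 2 ≤ Z₀ ∧ ∀ (Z : ℝ) (N : ℕ), Z₀ ≤ Z → Z ≤ N → ∀ A : Set ℕ,
      (Set.ncard {a : ℕ | a ∈ A ∧ 1 ≤ a ∧ (a : ℝ) < Z} : ℝ) ≤ δ * Z →
      (Set.ncard {n : ℕ | 1 ≤ n ∧ n ≤ N ∧ ¬ ∃ k : ℕ, H998_BC.C^[k] n ∉ A ∧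
        ((H998_BC.C^[k] n : ℕ) : ℝ) < Z ∧ ∀ j < k, Z ≤ ((H998_BC.C^[j] n : ℕ) : ℝ)} : ℝ) ≤ ε * N := by
  classical
  obtain ⟨δ, Z₀, hδ, hZ₀, h⟩ := transferZ (d := 1) (by norm_num) isCoprime_one_left hε
  refine ⟨δ, Z₀, hδ, hZ₀, fun Z N hZ hZN A hA => ?_⟩
  have hfinA : {a : ℕ | a ∈ A ∧ 1 ≤ a ∧ (a : ℝ) < Z}.Finite := by
    apply (Set.finite_Iic ⌊Z⌋₊).subset
    intro a ha
    rw [Set.mem_Iic, Nat.le_floor_iff (by linarith)]
    exact ha.2.2.le
  rw [Set.ncard_eq_toFinset_card _ hfinA] at hA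
  obtain ⟨F, hF⟩ : ∃ F : Finset ℤ, F = hfinA.toFinset.image (fun a : ℕ => (a : ℤ)) := ⟨_, rfl⟩
  have hFc : (F.card : ℝ) ≤ δ * Z := by
    refine le_trans ?_ hA
    rw [hF]
    exact_mod_cast card_image_le
  have h1 := h Z hZ F hFc N hZN
  refine le_trans ?_ h1
  have hfin : {n : ℕ | 1 ≤ n ∧ n ≤ N ∧ ¬ ∃ k : ℕ, H998_BC.C^[k] n ∉ A ∧
        ((H998_BC.C^[k] n : ℕ) : ℝ) < Z ∧ ∀ j < k, Z ≤ ((H998_BC.C^[j] n : ℕ) : ℝ)}.Finite := by
    apply (Set.finite_Iic N).subset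
    intro n hn
    exact hn.2.1
  rw [Set.ncard_eq_toFinset_card _ hfin]
  have hle : (hfin.toFinset.image (fun n : ℕ => (n : ℤ))).card
      ≤ ((Finset.Icc (1 : ℤ) N).filter (fun n => ¬ ∃ k : ℕ, (Tz 1)^[k] n ∉ F ∧
        (((Tz 1)^[k] n : ℤ) : ℝ) < Z ∧ ∀ j < k, Z ≤ (((Tz 1)^[j] n : ℤ) : ℝ))).card := by
    apply Finset.card_le_card
    intro x hx
    rw [Finset.mem_image] at hx
    obtain ⟨n, hn, rfl⟩ := hx
    rw [Set.Finite.mem_toFinset] at hn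
    obtain ⟨hn1, hn2, hn3⟩ := hn
    rw [Finset.mem_filter, Finset.mem_Icc]
    refine ⟨⟨by exact_mod_cast hn1, by exact_mod_cast hn2⟩, ?_⟩
    rintro ⟨k, g1, g2, g3⟩
    have hcast : ∀ j : ℕ, (Tz 1)^[j] (n : ℤ) = ((Ta^[j] n : ℕ) : ℤ) := fun j =>
      R344.SP.iter_cast (T := Ta) (fun _ => rfl) j n
    rw [hcast] at g1 g2
    obtain ⟨k', g4, g5⟩ := T_to_C (Z := Z) k n (fun j hj => by
      have := g3 j hj
      rw [hcast] at this
      exact_mod_cast this)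
    apply hn3
    have hpos : 1 ≤ Ta^[k] n := by
      have : ∀ (i m : ℕ), 1 ≤ m → 1 ≤ Ta^[i] m := by
        intro i
        induction i with
        | zero => intro m hm; exact hm
        | succ i ih =>
          intro m hm
          rw [Function.iterate_succ_apply]
          apply ih
          unfold Ta
          split_ifs with he <;> omega
      exact this k n hn1
    have g2' : ((Ta^[k] n : ℕ) : ℝ) < Z := by exact_mod_cast g2
    refine ⟨k', ?_, by rw [g4]; exact g2', g5⟩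
    rw [g4]
    intro hAmem
    apply g1
    rw [hF, mem_image]
    exact ⟨_, by rw [Set.Finite.mem_toFinset]; exact ⟨hAmem, hpos, g2'⟩, rfl⟩
  rw [Finset.card_image_of_injective _ Nat.cast_injective] at hle
  exact_mod_cast hle

end Pool.Agent.H998_TP
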