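import Pool.Agent.H998_TP.Tr

/-! The transfer principle, part 5: laws which hold for almost all trajectories down to `n ^ o(1)` hold
in every window. -/

set_option autoImplicit false

namespace Pool.Agent.H998_TP

open Finset Filter Topology
open Pool.Agent.H499R2.CO (Tz)

/-- the transfer principle for the accelerated map on the positive integers -/
theorem transferT {T : ℕ → ℕ} (hT : ∀ n, T n = if n % 2 = 0 then n / 2 else (3 * n + 1) / 2)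
    {ε : ℝ} (hε : 0 < ε) :
    ∃ δ Z₀ : ℝ, 0 < δ ∧ 2 ≤ Z₀ ∧ ∀ (Z : ℝ) (N : ℕ), Z₀ ≤ Z → Z ≤ N → ∀ A : Set ℕ,
      (Set.ncard {a : ℕ | a ∈ A ∧ 1 ≤ a ∧ (a : ℝ) < Z} : ℝ) ≤ δ * Z →
      (Set.ncard {n : ℕ | 1 ≤ n ∧ n ≤ N ∧ ¬ ∃ k : ℕ, T^[k] n ∉ A ∧
        ((T^[k] n : ℕ) : ℝ) < Z ∧ ∀ j < k, Z ≤ ((T^[j] n : ℕ) : ℝ)} : ℝ) ≤ ε * N := by
  classical
  obtain ⟨δ, Z₀, hδ, hZ₀, h⟩ := transferZ (d := 1) (by norm_num) isCoprime_one_left hε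
  refine ⟨δ, Z₀, hδ, hZ₀, fun Z N hZ hZN A hA => ?_⟩
  have hfinA : {a : ℕ | a ∈ A ∧ 1 ≤ a ∧ (a : ℝ) < Z}.Finite := by
    apply (Set.finite_Iic ⌊Z⌋₊).subset
    intro a ha
    rw [Set.mem_Iic, Nat.le_floor_iff (by linarith)]
    exact ha.2.2.le
  rw [Set.ncard_eq_toFinset_card _ hfinA] at hA
  obtain ⟨F, hF⟩ : ∃ F : Finset ℤ, F = hfinA.toFinset.image (fun a : ℕ => (a : ℤ)) := ⟨_, rfl⟩
  have hFc : (F.card : ℝ) ≤ δ * Z := by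
    refine le_trans ?_ hA
    rw [hF]
    exact_mod_cast card_image_le
  have h1 := h Z hZ F hFc N hZN
  refine le_trans ?_ h1
  have hfin : {n : ℕ | 1 ≤ n ∧ n ≤ N ∧ ¬ ∃ k : ℕ, T^[k] n ∉ A ∧
        ((T^[k] n : ℕ) : ℝ) < Z ∧ ∀ j < k, Z ≤ ((T^[j] n : ℕ) : ℝ)}.Finite := by
    apply (Set.finite_Iic N).subset
    intro n hn
    exact hn.2.1
  rw [Set.ncard_eq_toFinset_card _ hfin]
  have hle : (hfin.toFinset.image (fun n : ℕ => (n : ℤ))).card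
      ≤ ((Finset.Icc (1 : ℤ) N).filter (fun n => ¬ ∃ k : ℕ, (Tz 1)^[k] n ∉ F ∧
        (((Tz 1)^[k] n : ℤ) : ℝ) < Z ∧ ∀ j < k, Z ≤ (((Tz 1)^[j] n : ℤ) : ℝ))).card := by
    apply Finset.card_le_card
    intro x hx
    rw [Finset.mem_image] at hx
    obtain ⟨n, hn, rfl⟩ := hx
    rw [Set.Finite.mem_toFinset] at hn
    obtain ⟨hn1, hn2, hn3⟩ := hn
    rw [Finset.mem_filter, Finset.mem_Icc]
    refine ⟨⟨by exact_mod_cast hn1, by exact_mod_cast hn2⟩, ?_⟩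
    rintro ⟨k, g1, g2, g3⟩
    have hcast : ∀ j : ℕ, (Tz 1)^[j] (n : ℤ) = ((T^[j] n : ℕ) : ℤ) := fun j =>
      R344.SP.iter_cast (T := T) hT j n
    rw [hcast] at g1 g2
    have hpos : 1 ≤ T^[k] n := by
      have : ∀ (i m : ℕ), 1 ≤ m → 1 ≤ T^[i] m := by
        intro i
        induction i with
        | zero => intro m hm; exact hm
        | succ i ih =>
          intro m hm
          rw [Function.iterate_succ_apply]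
          apply ih
          rw [hT]
          split_ifs with he <;> omega
      exact this k n hn1
    have g2' : ((T^[k] n : ℕ) : ℝ) < Z := by exact_mod_cast g2
    refine hn3 ⟨k, ?_, g2', fun j hj => ?_⟩
    · intro hAmem
      apply g1
      rw [hF, mem_image]
      exact ⟨_, by rw [Set.Finite.mem_toFinset]; exact ⟨hAmem, hpos, g2'⟩, rfl⟩
    · have := g3 j hj
      rw [hcast] at this
      exact_mod_cast this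
  rw [Finset.card_image_of_injective _ Nat.cast_injective] at hle
  exact_mod_cast hle

/-- the parameters -/
theorem params {κ ε δ : ℝ} (hκ : κ < 2 / Real.log (4 / 3)) (hε : 0 < ε) (hδ : 0 < δ) :
    ∃ κ₁ ε₁ Z₂ : ℝ, κ₁ < 2 / Real.log (4 / 3) ∧ 0 < ε₁ ∧ ε₁ ≤ ε ∧ 4 * ε₁ ≤ δ ∧ 1 ≤ Z₂ ∧
      ∀ Z : ℝ, Z₂ ≤ Z → ∀ a : ℝ, ε₁ * Z ≤ a → κ * Real.log Z ≤ κ₁ * Real.log a := by
  have hl : 0 < Real.log (4 / 3) := Real.log_pos (by norm_num)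
  have hq : 0 < 2 / Real.log (4 / 3) := by positivity
  obtain ⟨κ₀, hκ₀⟩ : ∃ κ₀ : ℝ, κ₀ = max κ 0 := ⟨_, rfl⟩
  have h0 : 0 ≤ κ₀ := by rw [hκ₀]; exact le_max_right _ _
  have h1 : κ ≤ κ₀ := by rw [hκ₀]; exact le_max_left _ _
  have h2 : κ₀ < 2 / Real.log (4 / 3) := by rw [hκ₀]; exact max_lt hκ hq
  obtain ⟨κ₁, hκ₁⟩ : ∃ κ₁ : ℝ, κ₁ = (κ₀ + 2 / Real.log (4 / 3)) / 2 := ⟨_, rfl⟩
  have h3 : κ₀ < κ₁ := by rw [hκ₁]; linarith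
  have h4 : κ₁ < 2 / Real.log (4 / 3) := by rw [hκ₁]; linarith
  obtain ⟨ε₁, hε₁⟩ : ∃ ε₁ : ℝ, ε₁ = min (min ε (δ / 4)) 1 := ⟨_, rfl⟩
  have h5 : 0 < ε₁ := by rw [hε₁]; positivity
  have h6 : ε₁ ≤ 1 := by rw [hε₁]; exact min_le_right _ _
  refine ⟨κ₁, ε₁, Real.exp (κ₁ * (-Real.log ε₁) / (κ₁ - κ₀)), h4, h5,
    by rw [hε₁]; exact (min_le_left _ _).trans (min_le_left _ _),
    by
      have : ε₁ ≤ δ / 4 := by rw [hε₁]; exact (min_le_left _ _).trans (min_le_right _ _)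
      linarith,
    ?_, ?_⟩
  · have h7 : Real.log ε₁ ≤ 0 := Real.log_nonpos h5.le h6
    have h8 : 0 ≤ κ₁ * (-Real.log ε₁) / (κ₁ - κ₀) := by
      apply div_nonneg _ (by linarith)
      apply mul_nonneg (by linarith) (by linarith)
    linarith [Real.add_one_le_exp (κ₁ * (-Real.log ε₁) / (κ₁ - κ₀))]
  · intro Z hZ a ha
    have hZ0 : 0 < Z := (Real.exp_pos _).trans_le hZ
    have h8 : κ₁ * (-Real.log ε₁) / (κ₁ - κ₀) ≤ Real.log Z := by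
      rw [Real.le_log_iff_exp_le hZ0]; exact hZ
    rw [div_le_iff₀ (by linarith)] at h8
    have h9 : Real.log ε₁ + Real.log Z ≤ Real.log a := by
      rw [← Real.log_mul h5.ne' hZ0.ne']
      exact Real.log_le_log (by positivity) ha
    have h7 : Real.log ε₁ ≤ 0 := Real.log_nonpos h5.le h6
    have hlZ : 0 ≤ Real.log Z := by
      have h8' : 0 ≤ κ₁ * (-Real.log ε₁) := mul_nonneg (by linarith) (by linarith)
      by_contra hcon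
      push Not at hcon
      nlinarith
    calc κ * Real.log Z ≤ κ₀ * Real.log Z := mul_le_mul_of_nonneg_right h1 hlZ
      _ ≤ κ₁ * (Real.log ε₁ + Real.log Z) := by nlinarith
      _ ≤ κ₁ * Real.log a := mul_le_mul_of_nonneg_left h9 (by linarith)

/-- every window -/
theorem windows {T : ℕ → ℕ} (hT : ∀ n, T n = if n % 2 = 0 then n / 2 else (3 * n + 1) / 2)
    {W : Type*} (P : W → Prop) (val : W → ℕ → ℕ → ℝ)
    (h : ∀ κ ε : ℝ, κ < 2 / Real.log (4 / 3) → 0 < ε → ∃ N₀ : ℕ, ∀ N ≥ N₀, ∀ w : W, P w →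
      (Set.ncard {n : ℕ | 1 ≤ n ∧ n ≤ N ∧ ∃ t : ℕ, (t : ℝ) ≤ κ * Real.log n ∧
        ε * Real.log n < val w t n} : ℝ) ≤ ε * N) (κ ε : ℝ) (hκ : κ < 2 / Real.log (4 / 3)) (hε : 0 < ε) :
    ∃ Z₀ : ℝ, 2 ≤ Z₀ ∧ ∀ (Z : ℝ) (N : ℕ), Z₀ ≤ Z → Z ≤ N → ∀ w : W, P w →
      (Set.ncard {n : ℕ | 1 ≤ n ∧ n ≤ N ∧ ¬ ∃ k : ℕ, ((T^[k] n : ℕ) : ℝ) < Z ∧
        (∀ j < k, Z ≤ ((T^[j] n : ℕ) : ℝ)) ∧
        ∀ t : ℕ, (t : ℝ) ≤ κ * Real.log Z → val w t (T^[k] n) ≤ ε * Real.log Z} : ℝ) ≤ ε * N := by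
  classical
  obtain ⟨δ, Z₁, hδ, hZ₁, htr⟩ := transferT hT hε
  obtain ⟨κ₁, ε₁, Z₂, hκ₁, hε₁, hεε, hεδ, hZ₂, hpar⟩ := params hκ hε hδ
  obtain ⟨N₀, hN₀⟩ := h κ₁ ε₁ hκ₁ hε₁
  refine ⟨max (max Z₁ Z₂) (max (N₀ + 1) 2), (le_max_right _ _).trans (le_max_right _ _), ?_⟩
  intro Z N hZ hZN w hw
  have hZa : Z₁ ≤ Z := ((le_max_left _ _).trans (le_max_left _ _)).trans hZ
  have hZb : Z₂ ≤ Z := ((le_max_right _ _).trans (le_max_left _ _)).trans hZ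
  have hZc : (N₀ : ℝ) + 1 ≤ Z := ((le_max_left _ _).trans (le_max_right _ _)).trans hZ
  have hZd : 2 ≤ Z := ((le_max_right _ _).trans (le_max_right _ _)).trans hZ
  have hZ0 : 0 < Z := by linarith
  obtain ⟨M, hM⟩ : ∃ M : ℕ, M = ⌊Z⌋₊ := ⟨_, rfl⟩
  have hMZ : (M : ℝ) ≤ Z := by rw [hM]; exact Nat.floor_le hZ0.le
  have hMN : N₀ ≤ M := by rw [hM]; apply Nat.le_floor; linarith
  obtain ⟨A, hA⟩ : ∃ A : Set ℕ, A = {m : ℕ | ∃ t : ℕ, (t : ℝ) ≤ κ * Real.log Z ∧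
    ε * Real.log Z < val w t m} := ⟨_, rfl⟩
  have hlZ : 0 ≤ Real.log Z := Real.log_nonneg (by linarith)
  have hAc : (Set.ncard {a : ℕ | a ∈ A ∧ 1 ≤ a ∧ (a : ℝ) < Z} : ℝ) ≤ δ * Z := by
    have h1 := hN₀ M hMN w hw
    have hsub : {a : ℕ | a ∈ A ∧ 1 ≤ a ∧ (a : ℝ) < Z}
        ⊆ (Finset.Icc 1 ⌊ε₁ * Z⌋₊ : Set ℕ) ∪ {n : ℕ | 1 ≤ n ∧ n ≤ M ∧ ∃ t : ℕ,
          (t : ℝ) ≤ κ₁ * Real.log n ∧ ε₁ * Real.log n < val w t n} := by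
      rintro a ⟨ha1, ha2, ha3⟩
      rcases le_or_gt (a : ℝ) (ε₁ * Z) with hc | hc
      · left
        rw [mem_coe, Finset.mem_Icc]
        exact ⟨ha2, Nat.le_floor hc⟩
      · right
        rw [hA] at ha1
        obtain ⟨t, ht1, ht2⟩ := ha1
        have ha1R : (1 : ℝ) ≤ a := by exact_mod_cast ha2
        refine ⟨ha2, ?_, t, ht1.trans (hpar Z hZb a hc.le), lt_of_le_of_lt ?_ ht2⟩
        · rw [hM]; exact Nat.le_floor ha3.le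
        · apply mul_le_mul hεε _ (Real.log_nonneg ha1R) hε.le
          exact Real.log_le_log (by linarith) ha3.le
    have hfin : {n : ℕ | 1 ≤ n ∧ n ≤ M ∧ ∃ t : ℕ,
          (t : ℝ) ≤ κ₁ * Real.log n ∧ ε₁ * Real.log n < val w t n}.Finite := by
      apply (Set.finite_Iic M).subset
      intro n hn
      exact hn.2.1
    have h2 := (Set.ncard_le_ncard hsub ((Finset.finite_toSet _).union hfin)).trans (Set.ncard_union_le _ _)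
    rw [Set.ncard_coe_finset, Nat.card_Icc, Nat.add_sub_cancel] at h2
    have h3 : ((⌊ε₁ * Z⌋₊ : ℕ) : ℝ) ≤ ε₁ * Z := Nat.floor_le (by positivity)
    have h4 : (Set.ncard {a : ℕ | a ∈ A ∧ 1 ≤ a ∧ (a : ℝ) < Z} : ℝ) ≤ (⌊ε₁ * Z⌋₊ : ℝ)
        + (Set.ncard {n : ℕ | 1 ≤ n ∧ n ≤ M ∧ ∃ t : ℕ,
          (t : ℝ) ≤ κ₁ * Real.log n ∧ ε₁ * Real.log n < val w t n} : ℝ) := by exact_mod_cast h2
    have h5 : ε₁ * M ≤ ε₁ * Z := mul_le_mul_of_nonneg_left hMZ hε₁.le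
    nlinarith
  refine le_trans ?_ (htr Z N hZa hZN A hAc)
  have hsub : {n : ℕ | 1 ≤ n ∧ n ≤ N ∧ ¬ ∃ k : ℕ, ((T^[k] n : ℕ) : ℝ) < Z ∧
        (∀ j < k, Z ≤ ((T^[j] n : ℕ) : ℝ)) ∧
        ∀ t : ℕ, (t : ℝ) ≤ κ * Real.log Z → val w t (T^[k] n) ≤ ε * Real.log Z}
      ⊆ {n : ℕ | 1 ≤ n ∧ n ≤ N ∧ ¬ ∃ k : ℕ, T^[k] n ∉ A ∧
        ((T^[k] n : ℕ) : ℝ) < Z ∧ ∀ j < k, Z ≤ ((T^[j] n : ℕ) : ℝ)} := by
    rintro n ⟨h1, h2, h3⟩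
    refine ⟨h1, h2, ?_⟩
    rintro ⟨k, g1, g2, g3⟩
    refine h3 ⟨k, g2, g3, fun t ht => ?_⟩
    by_contra hcon
    push Not at hcon
    apply g1
    rw [hA]
    exact ⟨t, ht, hcon⟩
  have hfin2 : {n : ℕ | 1 ≤ n ∧ n ≤ N ∧ ¬ ∃ k : ℕ, T^[k] n ∉ A ∧
        ((T^[k] n : ℕ) : ℝ) < Z ∧ ∀ j < k, Z ≤ ((T^[j] n : ℕ) : ℝ)}.Finite := by
    apply (Set.finite_Iic N).subset
    intro n hn
    exact hn.2.1
  exact_mod_cast Set.ncard_le_ncard hsub hfin2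

end Pool.Agent.H998_TP
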