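import Pool.Agent.H998_TP.WinZ
import Pool.Agent.R344.SP.MA

/-! The transfer principle, part 7: windows for the map on the integers of both signs. -/

set_option autoImplicit false

namespace Pool.Agent.H998_TP

open Finset Filter Topology
open Pool.Agent.H499R2.CO (Tz)
open Pool.Agent.R344.SP (Few)

theorem small_count {Y : ℝ} (hY : 0 ≤ Y) :
    (Set.ncard {a : ℤ | a ≠ 0 ∧ |(a : ℝ)| ≤ Y} : ℝ) ≤ 2 * Y := by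
  have hsub : {a : ℤ | a ≠ 0 ∧ |(a : ℝ)| ≤ Y}
      ⊆ ((Finset.Icc 1 ⌊Y⌋ ∪ Finset.Icc (-⌊Y⌋) (-1) : Finset ℤ) : Set ℤ) := by
    rintro a ⟨h1, h2⟩
    rw [abs_le] at h2
    rw [mem_coe, mem_union, Finset.mem_Icc, Finset.mem_Icc]
    rcases lt_or_gt_of_ne h1 with h | h
    · right
      refine ⟨?_, by omega⟩
      rw [neg_le, Int.le_floor]
      push_cast
      linarith [h2.1]
    · left
      exact ⟨by omega, Int.le_floor.2 h2.2⟩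
  have h1 := Set.ncard_le_ncard hsub (Finset.finite_toSet _)
  rw [Set.ncard_coe_finset] at h1
  have h2 := h1.trans (card_union_le _ _)
  rw [Int.card_Icc, Int.card_Icc] at h2
  have hf : 0 ≤ ⌊Y⌋ := Int.floor_nonneg.2 hY
  have h3 : (((⌊Y⌋ + 1 - 1).toNat + (-1 + 1 - -⌊Y⌋).toNat : ℕ) : ℤ) = 2 * ⌊Y⌋ := by
    push_cast
    rw [Int.toNat_of_nonneg (by omega), Int.toNat_of_nonneg (by omega)]
    ring
  have h4 : (Set.ncard {a : ℤ | a ≠ 0 ∧ |(a : ℝ)| ≤ Y} : ℤ) ≤ 2 * ⌊Y⌋ := by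
    rw [← h3]; exact_mod_cast h2
  have h5 : (Set.ncard {a : ℤ | a ≠ 0 ∧ |(a : ℝ)| ≤ Y} : ℝ) ≤ 2 * (⌊Y⌋ : ℝ) := by exact_mod_cast h4
  linarith [Int.floor_le Y]

theorem fin_abs (N : ℕ) (P : ℤ → Prop) : {n : ℤ | n ≠ 0 ∧ |n| ≤ N ∧ P n}.Finite := by
  apply (Set.finite_Icc (-(N : ℤ)) N).subset
  rintro n ⟨_, h, _⟩
  rw [abs_le] at h
  exact h

theorem fin_lt (Y : ℝ) : {a : ℤ | a ≠ 0 ∧ |(a : ℝ)| ≤ Y}.Finite := by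
  apply (Set.finite_Icc (-⌊Y⌋) ⌊Y⌋).subset
  rintro a ⟨_, ha⟩
  rw [abs_le] at ha
  rw [Set.mem_Icc, neg_le, Int.le_floor, Int.le_floor]
  push_cast
  exact ⟨by linarith [ha.1], ha.2⟩

theorem abs_floor {Z : ℝ} {a : ℤ} (h : |(a : ℝ)| < Z) : |a| ≤ ((⌊Z⌋₊ : ℕ) : ℤ) := by
  have h1 : ((|a|.toNat : ℕ) : ℤ) = |a| := Int.toNat_of_nonneg (abs_nonneg a)
  have h2 : |a|.toNat ≤ ⌊Z⌋₊ := by
    apply Nat.le_floor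
    have : ((|a|.toNat : ℕ) : ℝ) = |(a : ℝ)| := by
      have : (((|a|.toNat : ℕ) : ℤ) : ℝ) = ((|a| : ℤ) : ℝ) := by rw [h1]
      push_cast at this
      exact this
    rw [this]; exact h.le
  rw [← h1]
  exact_mod_cast h2

/-- every window -/
theorem windowsI {T : ℤ → ℤ} (hT : ∀ x, T x = if x % 2 = 0 then x / 2 else (3 * x + 1) / 2)
    {W : Type*} (P : W → Prop) (val : W → ℕ → ℤ → ℝ)
    (h : ∀ κ ε : ℝ, κ < 2 / Real.log (4 / 3) → 0 < ε → ∃ N₀ : ℕ, ∀ N ≥ N₀, ∀ w : W, P w →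
      (Set.ncard {n : ℤ | n ≠ 0 ∧ |n| ≤ N ∧ ∃ t : ℕ, (t : ℝ) ≤ κ * Real.log |(n : ℝ)| ∧
        ε * Real.log |(n : ℝ)| < val w t n} : ℝ) ≤ ε * N)
    (κ ε : ℝ) (hκ : κ < 2 / Real.log (4 / 3)) (hε : 0 < ε) :
    ∃ Z₀ : ℝ, 2 ≤ Z₀ ∧ ∀ (Z : ℝ) (N : ℕ), Z₀ ≤ Z → Z ≤ N → ∀ w : W, P w →
      (Set.ncard {n : ℤ | n ≠ 0 ∧ |n| ≤ N ∧ ¬ ∃ k : ℕ, |((T^[k] n : ℤ) : ℝ)| < Z ∧
        (∀ j < k, Z ≤ |((T^[j] n : ℤ) : ℝ)|) ∧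
        ∀ t : ℕ, (t : ℝ) ≤ κ * Real.log Z → val w t (T^[k] n) ≤ ε * Real.log Z} : ℝ) ≤ ε * N := by
  classical
  obtain ⟨δ, Z₁, hδ, hZ₁, htr⟩ := transferI hT hε
  obtain ⟨κ₁, ε₁, Z₂, hκ₁, hε₁, hεε, hεδ, hZ₂, hpar⟩ := params hκ hε hδ
  obtain ⟨N₀, hN₀⟩ := h κ₁ ε₁ hκ₁ hε₁
  refine ⟨max (max Z₁ Z₂) (max (N₀ + 1) 2), (le_max_right _ _).trans (le_max_right _ _), ?_⟩
  intro Z N hZ hZN w hw
  have hZa : Z₁ ≤ Z := ((le_max_left _ _).trans (le_max_left _ _)).trans hZ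
  have hZb : Z₂ ≤ Z := ((le_max_right _ _).trans (le_max_left _ _)).trans hZ
  have hZc : (N₀ : ℝ) + 1 ≤ Z := ((le_max_left _ _).trans (le_max_right _ _)).trans hZ
  have hZd : 2 ≤ Z := ((le_max_right _ _).trans (le_max_right _ _)).trans hZ
  have hZ0 : 0 < Z := by linarith
  obtain ⟨M, hM⟩ : ∃ M : ℕ, M = ⌊Z⌋₊ := ⟨_, rfl⟩
  have hMZ : (M : ℝ) ≤ Z := by rw [hM]; exact Nat.floor_le hZ0.le
  have hMN : N₀ ≤ M := by rw [hM]; apply Nat.le_floor; linarith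
  obtain ⟨A, hA⟩ : ∃ A : Set ℤ, A = {m : ℤ | ∃ t : ℕ, (t : ℝ) ≤ κ * Real.log Z ∧
    ε * Real.log Z < val w t m} := ⟨_, rfl⟩
  have hAc : (Set.ncard {a : ℤ | a ∈ A ∧ a ≠ 0 ∧ |(a : ℝ)| < Z} : ℝ) ≤ δ * Z := by
    have h1 := hN₀ M hMN w hw
    have hsub : {a : ℤ | a ∈ A ∧ a ≠ 0 ∧ |(a : ℝ)| < Z}
        ⊆ {a : ℤ | a ≠ 0 ∧ |(a : ℝ)| ≤ ε₁ * Z} ∪ {n : ℤ | n ≠ 0 ∧ |n| ≤ M ∧ ∃ t : ℕ,
          (t : ℝ) ≤ κ₁ * Real.log |(n : ℝ)| ∧ ε₁ * Real.log |(n : ℝ)| < val w t n} := by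
      rintro a ⟨ha1, ha2, ha3⟩
      rcases le_or_gt |(a : ℝ)| (ε₁ * Z) with hc | hc
      · left
        exact ⟨ha2, hc⟩
      · right
        rw [hA] at ha1
        obtain ⟨t, ht1, ht2⟩ := ha1
        have ha1R : (1 : ℝ) ≤ |(a : ℝ)| := by
          have : (1 : ℤ) ≤ |a| := Int.one_le_abs ha2
          exact_mod_cast this
        refine ⟨ha2, ?_, t, ht1.trans (hpar Z hZb _ hc.le), lt_of_le_of_lt ?_ ht2⟩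
        · rw [hM]; exact abs_floor ha3
        · apply mul_le_mul hεε _ (Real.log_nonneg ha1R) hε.le
          exact Real.log_le_log (by linarith) ha3.le
    have h2 := (Set.ncard_le_ncard hsub ((fin_lt _).union (fin_abs M _))).trans (Set.ncard_union_le _ _)
    have h3 := small_count (Y := ε₁ * Z) (by positivity)
    have h4 : (Set.ncard {a : ℤ | a ∈ A ∧ a ≠ 0 ∧ |(a : ℝ)| < Z} : ℝ)
        ≤ (Set.ncard {a : ℤ | a ≠ 0 ∧ |(a : ℝ)| ≤ ε₁ * Z} : ℝ)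
        + (Set.ncard {n : ℤ | n ≠ 0 ∧ |n| ≤ M ∧ ∃ t : ℕ,
          (t : ℝ) ≤ κ₁ * Real.log |(n : ℝ)| ∧ ε₁ * Real.log |(n : ℝ)| < val w t n} : ℝ) := by exact_mod_cast h2
    have h5 : ε₁ * M ≤ ε₁ * Z := mul_le_mul_of_nonneg_left hMZ hε₁.le
    nlinarith
  refine le_trans ?_ (htr Z N hZa hZN A hAc)
  have hsub : {n : ℤ | n ≠ 0 ∧ |n| ≤ N ∧ ¬ ∃ k : ℕ, |((T^[k] n : ℤ) : ℝ)| < Z ∧
        (∀ j < k, Z ≤ |((T^[j] n : ℤ) : ℝ)|) ∧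
        ∀ t : ℕ, (t : ℝ) ≤ κ * Real.log Z → val w t (T^[k] n) ≤ ε * Real.log Z}
      ⊆ {n : ℤ | n ≠ 0 ∧ |n| ≤ N ∧ ¬ ∃ k : ℕ, T^[k] n ∉ A ∧
        |((T^[k] n : ℤ) : ℝ)| < Z ∧ ∀ j < k, Z ≤ |((T^[j] n : ℤ) : ℝ)|} := by
    rintro n ⟨h1, h2, h3⟩
    refine ⟨h1, h2, ?_⟩
    rintro ⟨k, g1, g2, g3⟩
    refine h3 ⟨k, g2, g3, fun t ht => ?_⟩
    by_contra hcon
    push Not at hcon
    apply g1
    rw [hA]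
    exact ⟨t, ht, hcon⟩
  exact_mod_cast Set.ncard_le_ncard hsub (fin_abs N _)

/-- terms with a given property in every window -/
theorem window_iter {T : ℤ → ℤ} (hT : ∀ x, T x = if x % 2 = 0 then x / 2 else (3 * x + 1) / 2)
    {Q : ℤ → Prop} {α α' : ℝ} (hα : 0 < α) (hαα : α < α')
    (h : ∀ c : ℝ, 0 < c → Few c (fun (_ : Unit) n => ¬ ∃ k : ℕ, |(n : ℝ)| ^ α' ≤ |((T^[k] n : ℤ) : ℝ)| ∧
      |((T^[k] n : ℤ) : ℝ)| ≤ |(n : ℝ)| ^ (1 : ℝ) ∧ Q (T^[k] n))) {ε : ℝ} (hε : 0 < ε) :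
    ∃ Z₀ : ℝ, 2 ≤ Z₀ ∧ ∀ (Z : ℝ) (N : ℕ), Z₀ ≤ Z → Z ≤ N →
      (Set.ncard {n : ℤ | n ≠ 0 ∧ |n| ≤ N ∧ ¬ ∃ k : ℕ, Z ^ α ≤ |((T^[k] n : ℤ) : ℝ)| ∧
        |((T^[k] n : ℤ) : ℝ)| ≤ Z ∧ Q (T^[k] n)} : ℝ) ≤ ε * N := by
  classical
  obtain ⟨δ, Z₁, hδ, hZ₁, htr⟩ := transferI hT hε
  obtain ⟨N₀, hN₀⟩ := h (δ / 4) (by positivity)
  obtain ⟨η, hη⟩ : ∃ η : ℝ, η = δ / 8 := ⟨_, rfl⟩
  have hη0 : 0 < η := by rw [hη]; positivity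
  have hlim : Tendsto (fun Z : ℝ => Z ^ (α' - α)) atTop atTop := tendsto_rpow_atTop (by linarith)
  obtain ⟨Z₂, hZ₂⟩ := eventually_atTop.1 (hlim.eventually_ge_atTop ((1 / η) ^ α'))
  refine ⟨max (max Z₁ Z₂) (max (N₀ + 1) 2), (le_max_right _ _).trans (le_max_right _ _), ?_⟩
  intro Z N hZ hZN
  have hZa : Z₁ ≤ Z := ((le_max_left _ _).trans (le_max_left _ _)).trans hZ
  have hZb : Z₂ ≤ Z := ((le_max_right _ _).trans (le_max_left _ _)).trans hZ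
  have hZc : (N₀ : ℝ) + 1 ≤ Z := ((le_max_left _ _).trans (le_max_right _ _)).trans hZ
  have hZd : 2 ≤ Z := ((le_max_right _ _).trans (le_max_right _ _)).trans hZ
  have hZ0 : 0 < Z := by linarith
  obtain ⟨M, hM⟩ : ∃ M : ℕ, M = ⌊Z⌋₊ := ⟨_, rfl⟩
  have hMZ : (M : ℝ) ≤ Z := by rw [hM]; exact Nat.floor_le hZ0.le
  have hMN : N₀ ≤ M := by rw [hM]; apply Nat.le_floor; linarith
  obtain ⟨A, hA⟩ : ∃ A : Set ℤ, A = {m : ℤ | |(m : ℝ)| ≤ η * Z ∨ ¬ ∃ k : ℕ,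
      |(m : ℝ)| ^ α' ≤ |((T^[k] m : ℤ) : ℝ)| ∧ |((T^[k] m : ℤ) : ℝ)| ≤ |(m : ℝ)| ^ (1 : ℝ) ∧
        Q (T^[k] m)} := ⟨_, rfl⟩
  have hAc : (Set.ncard {a : ℤ | a ∈ A ∧ a ≠ 0 ∧ |(a : ℝ)| < Z} : ℝ) ≤ δ * Z := by
    have h1 := hN₀ M hMN ()
    have hsub : {a : ℤ | a ∈ A ∧ a ≠ 0 ∧ |(a : ℝ)| < Z}
        ⊆ {a : ℤ | a ≠ 0 ∧ |(a : ℝ)| ≤ η * Z} ∪ {n : ℤ | n ≠ 0 ∧ |n| ≤ M ∧ ¬ ∃ k : ℕ,
          |(n : ℝ)| ^ α' ≤ |((T^[k] n : ℤ) : ℝ)| ∧ |((T^[k] n : ℤ) : ℝ)| ≤ |(n : ℝ)| ^ (1 : ℝ) ∧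
            Q (T^[k] n)} := by
      rintro a ⟨ha1, ha2, ha3⟩
      rw [hA] at ha1
      rcases ha1 with hc | hc
      · exact Or.inl ⟨ha2, hc⟩
      · right
        refine ⟨ha2, ?_, hc⟩
        rw [hM]; exact abs_floor ha3
    have h2 := (Set.ncard_le_ncard hsub ((fin_lt _).union (fin_abs M _))).trans (Set.ncard_union_le _ _)
    have h3 := small_count (Y := η * Z) (by positivity)
    have h4 : (Set.ncard {a : ℤ | a ∈ A ∧ a ≠ 0 ∧ |(a : ℝ)| < Z} : ℝ)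
        ≤ (Set.ncard {a : ℤ | a ≠ 0 ∧ |(a : ℝ)| ≤ η * Z} : ℝ)
        + (Set.ncard {n : ℤ | n ≠ 0 ∧ |n| ≤ M ∧ ¬ ∃ k : ℕ,
          |(n : ℝ)| ^ α' ≤ |((T^[k] n : ℤ) : ℝ)| ∧ |((T^[k] n : ℤ) : ℝ)| ≤ |(n : ℝ)| ^ (1 : ℝ) ∧
            Q (T^[k] n)} : ℝ) := by exact_mod_cast h2
    have h5 : δ / 4 * M ≤ δ / 4 * Z := mul_le_mul_of_nonneg_left hMZ (by positivity)
    have h6 : 2 * (η * Z) = δ / 4 * Z := by rw [hη]; ring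
    have h7 : 0 < δ * Z := by positivity
    linarith
  refine le_trans ?_ (htr Z N hZa hZN A hAc)
  have hsub : {n : ℤ | n ≠ 0 ∧ |n| ≤ N ∧ ¬ ∃ k : ℕ, Z ^ α ≤ |((T^[k] n : ℤ) : ℝ)| ∧
        |((T^[k] n : ℤ) : ℝ)| ≤ Z ∧ Q (T^[k] n)}
      ⊆ {n : ℤ | n ≠ 0 ∧ |n| ≤ N ∧ ¬ ∃ k : ℕ, T^[k] n ∉ A ∧
        |((T^[k] n : ℤ) : ℝ)| < Z ∧ ∀ j < k, Z ≤ |((T^[j] n : ℤ) : ℝ)|} := by
    rintro n ⟨h1, h2, h3⟩
    refine ⟨h1, h2, ?_⟩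
    rintro ⟨k, g1, g2, g3⟩
    rw [hA, Set.mem_ofPred_eq] at g1
    push Not at g1
    obtain ⟨g4, k', g5, g6, g7⟩ := g1
    apply h3
    refine ⟨k' + k, ?_, ?_, ?_⟩
    · rw [Function.iterate_add_apply]
      refine le_trans ?_ g5
      have e1 : (η * Z) ^ α' ≤ |((T^[k] n : ℤ) : ℝ)| ^ α' :=
        Real.rpow_le_rpow (by positivity) g4.le (by linarith)
      refine le_trans ?_ e1
      rw [Real.mul_rpow hη0.le hZ0.le]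
      have e2 := hZ₂ Z hZb
      rw [one_div, Real.inv_rpow hη0.le, inv_le_iff_one_le_mul₀ (by positivity)] at e2
      have e3 : Z ^ α' = Z ^ (α' - α) * Z ^ α := by rw [← Real.rpow_add hZ0]; congr 1; ring
      rw [e3]
      have e4 : 0 < Z ^ α := by positivity
      calc Z ^ α = 1 * Z ^ α := (one_mul _).symm
        _ ≤ (Z ^ (α' - α) * η ^ α') * Z ^ α := mul_le_mul_of_nonneg_right e2 e4.le
        _ = _ := by ring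
    · rw [Function.iterate_add_apply]
      rw [Real.rpow_one] at g6
      exact g6.trans g2.le
    · rw [Function.iterate_add_apply]; exact g7
  exact_mod_cast Set.ncard_le_ncard hsub (fin_abs N _)

end Pool.Agent.H998_TP
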