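import Pool.Agent.H998_TP.Win

/-! The transfer principle, part 6: the map on the integers of both signs. -/

set_option autoImplicit false

namespace Pool.Agent.H998_TP

open Finset Filter Topology
open Pool.Agent.H499R2.CO (Tz)

theorem T_pos {T : ℤ → ℤ} (hT : ∀ x, T x = if x % 2 = 0 then x / 2 else (3 * x + 1) / 2) (s : ℤ)
    (hs : s = 1 ∨ s = -1) (x : ℤ) : T (s * x) = s * Tz s x := by
  rw [hT]
  unfold Tz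
  rcases hs with rfl | rfl
  · simp only [one_mul]
  · by_cases h : x % 2 = 0
    · rw [if_pos (by omega), if_pos h]; omega
    · rw [if_neg (by omega), if_neg h]; omega

theorem T_iter {T : ℤ → ℤ} (hT : ∀ x, T x = if x % 2 = 0 then x / 2 else (3 * x + 1) / 2) (s : ℤ)
    (hs : s = 1 ∨ s = -1) : ∀ (k : ℕ) (x : ℤ), T^[k] (s * x) = s * (Tz s)^[k] x
  | 0, x => rfl
  | k + 1, x => by
    rw [Function.iterate_succ_apply, T_pos hT s hs, T_iter hT s hs k, Function.iterate_succ_apply]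

theorem Tz_pos {s : ℤ} (hs : s = 1 ∨ s = -1) : ∀ (k : ℕ) (x : ℤ), 1 ≤ x → 1 ≤ (Tz s)^[k] x
  | 0, x, h => h
  | k + 1, x, h => by
    rw [Function.iterate_succ_apply]
    apply Tz_pos hs k
    unfold Tz
    rcases hs with rfl | rfl <;> split_ifs with he <;> omega

/-- one sign -/
theorem transfer_sign {T : ℤ → ℤ} (hT : ∀ x, T x = if x % 2 = 0 then x / 2 else (3 * x + 1) / 2) (s : ℤ)
    (hs : s = 1 ∨ s = -1) {ε : ℝ} (hε : 0 < ε) :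
    ∃ δ Z₀ : ℝ, 0 < δ ∧ 2 ≤ Z₀ ∧ ∀ (Z : ℝ) (N : ℕ), Z₀ ≤ Z → Z ≤ N → ∀ A : Set ℤ,
      (Set.ncard {a : ℤ | a ∈ A ∧ a ≠ 0 ∧ |(a : ℝ)| < Z} : ℝ) ≤ δ * Z →
      (Set.ncard {n : ℤ | (0 < s * n ∧ s * n ≤ N) ∧ ¬ ∃ k : ℕ, T^[k] n ∉ A ∧
        |((T^[k] n : ℤ) : ℝ)| < Z ∧ ∀ j < k, Z ≤ |((T^[j] n : ℤ) : ℝ)|} : ℝ) ≤ ε * N := by
  classical
  have hsodd : Odd s := by rcases hs with rfl | rfl <;> decide
  have hs3 : IsCoprime s 3 := by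
    rcases hs with rfl | rfl
    · exact isCoprime_one_left
    · exact isCoprime_one_left.neg_left
  have hss : s * s = 1 := by rcases hs with rfl | rfl <;> norm_num
  have hsR : |(s : ℝ)| = 1 := by rcases hs with rfl | rfl <;> norm_num
  obtain ⟨δ, Z₀, hδ, hZ₀, h⟩ := transferZ hsodd hs3 hε
  refine ⟨δ, Z₀, hδ, hZ₀, fun Z N hZ hZN A hA => ?_⟩
  have hfinA : {a : ℤ | a ∈ A ∧ a ≠ 0 ∧ |(a : ℝ)| < Z}.Finite := by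
    apply (Set.finite_Icc (-⌊Z⌋) ⌊Z⌋).subset
    rintro a ⟨_, _, ha⟩
    rw [abs_lt] at ha
    rw [Set.mem_Icc, neg_le, Int.le_floor, Int.le_floor]
    push_cast
    exact ⟨by linarith [ha.1], ha.2.le⟩
  rw [Set.ncard_eq_toFinset_card _ hfinA] at hA
  obtain ⟨F, hF⟩ : ∃ F : Finset ℤ, F = hfinA.toFinset.image (fun a : ℤ => s * a) := ⟨_, rfl⟩
  have hFc : (F.card : ℝ) ≤ δ * Z := by
    refine le_trans ?_ hA
    rw [hF]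
    exact_mod_cast card_image_le
  have h1 := h Z hZ F hFc N hZN
  refine le_trans ?_ h1
  have hinj : Function.Injective (fun n : ℤ => s * n) := by
    intro a b hab
    simp only at hab
    have : s * (s * a) = s * (s * b) := by rw [hab]
    rwa [← mul_assoc, ← mul_assoc, hss, one_mul, one_mul] at this
  have hsub : (fun n : ℤ => s * n) '' {n : ℤ | (0 < s * n ∧ s * n ≤ N) ∧ ¬ ∃ k : ℕ, T^[k] n ∉ A ∧
        |((T^[k] n : ℤ) : ℝ)| < Z ∧ ∀ j < k, Z ≤ |((T^[j] n : ℤ) : ℝ)|}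
      ⊆ (((Finset.Icc (1 : ℤ) N).filter (fun n => ¬ ∃ k : ℕ, (Tz s)^[k] n ∉ F ∧
        (((Tz s)^[k] n : ℤ) : ℝ) < Z ∧ ∀ j < k, Z ≤ (((Tz s)^[j] n : ℤ) : ℝ)) : Finset ℤ) : Set ℤ) := by
    rintro _ ⟨n, ⟨⟨hn1, hn2⟩, hn3⟩, rfl⟩
    simp only
    rw [mem_coe, mem_filter, Finset.mem_Icc]
    refine ⟨⟨by omega, hn2⟩, ?_⟩
    rintro ⟨k, g1, g2, g3⟩
    apply hn3
    have hval : ∀ j : ℕ, T^[j] n = s * (Tz s)^[j] (s * n) := by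
      intro j
      rw [← T_iter hT s hs j (s * n), ← mul_assoc, hss, one_mul]
    have hvR : ∀ j : ℕ, |((T^[j] n : ℤ) : ℝ)| = (((Tz s)^[j] (s * n) : ℤ) : ℝ) := by
      intro j
      rw [hval j]
      push_cast
      rw [abs_mul, hsR, one_mul, abs_of_nonneg]
      have := Tz_pos hs j (s * n) (by omega)
      have h2 : (1 : ℝ) ≤ (((Tz s)^[j] (s * n) : ℤ) : ℝ) := by exact_mod_cast this
      linarith
    refine ⟨k, ?_, by rw [hvR]; exact g2, fun j hj => by rw [hvR]; exact g3 j hj⟩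
    intro hAm
    apply g1
    rw [hF, mem_image]
    refine ⟨T^[k] n, ?_, ?_⟩
    · rw [Set.Finite.mem_toFinset]
      refine ⟨hAm, ?_, by rw [hvR]; exact g2⟩
      intro h0
      have h2 := hvR k
      rw [h0] at h2
      have := Tz_pos hs k (s * n) (by omega)
      have h3 : (1 : ℝ) ≤ (((Tz s)^[k] (s * n) : ℤ) : ℝ) := by exact_mod_cast this
      rw [← h2] at h3
      norm_num at h3
    · rw [hval k, ← mul_assoc, hss, one_mul]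
  have h2 := Set.ncard_le_ncard hsub (Finset.finite_toSet _)
  rw [Set.ncard_image_of_injective _ hinj, Set.ncard_coe_finset] at h2
  exact_mod_cast h2

/-- both signs -/
theorem transferI {T : ℤ → ℤ} (hT : ∀ x, T x = if x % 2 = 0 then x / 2 else (3 * x + 1) / 2)
    {ε : ℝ} (hε : 0 < ε) :
    ∃ δ Z₀ : ℝ, 0 < δ ∧ 2 ≤ Z₀ ∧ ∀ (Z : ℝ) (N : ℕ), Z₀ ≤ Z → Z ≤ N → ∀ A : Set ℤ,
      (Set.ncard {a : ℤ | a ∈ A ∧ a ≠ 0 ∧ |(a : ℝ)| < Z} : ℝ) ≤ δ * Z →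
      (Set.ncard {n : ℤ | n ≠ 0 ∧ |n| ≤ N ∧ ¬ ∃ k : ℕ, T^[k] n ∉ A ∧
        |((T^[k] n : ℤ) : ℝ)| < Z ∧ ∀ j < k, Z ≤ |((T^[j] n : ℤ) : ℝ)|} : ℝ) ≤ ε * N := by
  obtain ⟨δ₁, Z₁, hδ₁, hZ₁, h1⟩ := transfer_sign hT 1 (Or.inl rfl) (show 0 < ε / 2 by positivity)
  obtain ⟨δ₂, Z₂, hδ₂, hZ₂, h2⟩ := transfer_sign hT (-1) (Or.inr rfl) (show 0 < ε / 2 by positivity)
  refine ⟨min δ₁ δ₂, max Z₁ Z₂, lt_min hδ₁ hδ₂, hZ₁.trans (le_max_left _ _), ?_⟩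
  intro Z N hZ hZN A hA
  have hZ0 : 0 ≤ Z := by
    have : Z₁ ≤ Z := (le_max_left _ _).trans hZ
    linarith
  have e1 := h1 Z N ((le_max_left _ _).trans hZ) hZN A
    (hA.trans (mul_le_mul_of_nonneg_right (min_le_left _ _) hZ0))
  have e2 := h2 Z N ((le_max_right _ _).trans hZ) hZN A
    (hA.trans (mul_le_mul_of_nonneg_right (min_le_right _ _) hZ0))
  have hfin : ∀ s : ℤ, s = 1 ∨ s = -1 → {n : ℤ | (0 < s * n ∧ s * n ≤ N) ∧ ¬ ∃ k : ℕ, T^[k] n ∉ A ∧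
        |((T^[k] n : ℤ) : ℝ)| < Z ∧ ∀ j < k, Z ≤ |((T^[j] n : ℤ) : ℝ)|}.Finite := by
    intro s hs
    apply (Set.finite_Icc (-(N : ℤ)) N).subset
    rintro n ⟨⟨g1, g2⟩, _⟩
    rw [Set.mem_Icc]
    rcases hs with rfl | rfl <;> omega
  have hsub : {n : ℤ | n ≠ 0 ∧ |n| ≤ N ∧ ¬ ∃ k : ℕ, T^[k] n ∉ A ∧
        |((T^[k] n : ℤ) : ℝ)| < Z ∧ ∀ j < k, Z ≤ |((T^[j] n : ℤ) : ℝ)|}
      ⊆ {n : ℤ | (0 < 1 * n ∧ 1 * n ≤ N) ∧ ¬ ∃ k : ℕ, T^[k] n ∉ A ∧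
        |((T^[k] n : ℤ) : ℝ)| < Z ∧ ∀ j < k, Z ≤ |((T^[j] n : ℤ) : ℝ)|}
        ∪ {n : ℤ | (0 < -1 * n ∧ -1 * n ≤ N) ∧ ¬ ∃ k : ℕ, T^[k] n ∉ A ∧
        |((T^[k] n : ℤ) : ℝ)| < Z ∧ ∀ j < k, Z ≤ |((T^[j] n : ℤ) : ℝ)|} := by
    rintro n ⟨g1, g2, g3⟩
    rw [abs_le] at g2
    rcases lt_or_gt_of_ne g1 with h | h
    · exact Or.inr ⟨⟨by omega, by omega⟩, g3⟩
    · exact Or.inl ⟨⟨by omega, by omega⟩, g3⟩
  have h3 := (Set.ncard_le_ncard hsub ((hfin 1 (Or.inl rfl)).union (hfin (-1) (Or.inr rfl)))).trans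
    (Set.ncard_union_le _ _)
  have h4 : (Set.ncard {n : ℤ | n ≠ 0 ∧ |n| ≤ N ∧ ¬ ∃ k : ℕ, T^[k] n ∉ A ∧
        |((T^[k] n : ℤ) : ℝ)| < Z ∧ ∀ j < k, Z ≤ |((T^[j] n : ℤ) : ℝ)|} : ℝ)
      ≤ (Set.ncard {n : ℤ | (0 < 1 * n ∧ 1 * n ≤ N) ∧ ¬ ∃ k : ℕ, T^[k] n ∉ A ∧
        |((T^[k] n : ℤ) : ℝ)| < Z ∧ ∀ j < k, Z ≤ |((T^[j] n : ℤ) : ℝ)|} : ℝ)
      + (Set.ncard {n : ℤ | (0 < -1 * n ∧ -1 * n ≤ N) ∧ ¬ ∃ k : ℕ, T^[k] n ∉ A ∧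
        |((T^[k] n : ℤ) : ℝ)| < Z ∧ ∀ j < k, Z ≤ |((T^[j] n : ℤ) : ℝ)|} : ℝ) := by exact_mod_cast h3
  linarith

end Pool.Agent.H998_TP
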